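import Pool.Agent.H391.CV.G

set_option autoImplicit false
set_option linter.unusedVariables false
set_option linter.unusedSimpArgs false

/-! The identities of the affine Lie algebra. -/

attribute [local instance 100] LieRing.ofAssociativeRing

namespace Pool.Agent.H391.CV

universe u

section

variable {K : Type u} [Field K]

lemma lb_add_left (X X' Y : ℤ →₀ G2 K) : lb (X + X') Y = lb X Y + lb X' Y := by
  unfold lb
  rw [Finsupp.sum_add_index']
  · intro m; simp
  · intro m x x'
    rw [← Finsupp.sum_add]
    apply Finsupp.sum_congr
    intro n _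
    rw [add_lie, Finsupp.single_add]

lemma lb_add_right (X Y Y' : ℤ →₀ G2 K) : lb X (Y + Y') = lb X Y + lb X Y' := by
  unfold lb
  rw [← Finsupp.sum_add]
  apply Finsupp.sum_congr
  intro m _
  rw [Finsupp.sum_add_index']
  · intro n; simp
  · intro n y y'
    rw [lie_add, Finsupp.single_add]

lemma lb_zero_left (Y : ℤ →₀ G2 K) : lb 0 Y = 0 := by simp [lb]

lemma lb_zero_right (Y : ℤ →₀ G2 K) : lb Y 0 = 0 := by simp [lb]

lemma lb_smul_right (r : K) (X Y : ℤ →₀ G2 K) : lb X (r • Y) = r • lb X Y := by
  unfold lb
  rw [Finsupp.smul_sum]
  apply Finsupp.sum_congr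
  intro m _
  rw [Finsupp.sum_smul_index', Finsupp.smul_sum]
  · apply Finsupp.sum_congr
    intro n _
    rw [lie_smul, Finsupp.smul_single]
  · intro n; simp

lemma lb_single (m n : ℤ) (x y : G2 K) :
    lb (Finsupp.single m x) (Finsupp.single n y) = Finsupp.single (m + n) ⁅x, y⁆ := by
  unfold lb
  rw [Finsupp.sum_single_index, Finsupp.sum_single_index]
  · simp
  · simp

lemma cc_add_left (X X' Y : ℤ →₀ G2 K) : cc (X + X') Y = cc X Y + cc X' Y := by
  unfold cc
  rw [Finsupp.sum_add_index']
  · intro m; simp [kf_zero_left]
  · intro m x x'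
    rw [← Finsupp.sum_add]
    apply Finsupp.sum_congr
    intro n _
    split_ifs
    · rw [kf_add_left, mul_add]
    · simp

lemma cc_add_right (X Y Y' : ℤ →₀ G2 K) : cc X (Y + Y') = cc X Y + cc X Y' := by
  unfold cc
  rw [← Finsupp.sum_add]
  apply Finsupp.sum_congr
  intro m _
  rw [Finsupp.sum_add_index']
  · intro n; simp [kf_zero_right]
  · intro n y y'
    split_ifs
    · rw [kf_add_right, mul_add]
    · simp

lemma cc_zero_left (Y : ℤ →₀ G2 K) : cc 0 Y = 0 := by simp [cc]

lemma cc_zero_right (Y : ℤ →₀ G2 K) : cc Y 0 = 0 := by simp [cc]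

lemma cc_smul_right (r : K) (X Y : ℤ →₀ G2 K) : cc X (r • Y) = r * cc X Y := by
  unfold cc
  rw [← smul_eq_mul, Finsupp.smul_sum]
  apply Finsupp.sum_congr
  intro m _
  rw [Finsupp.sum_smul_index', Finsupp.smul_sum]
  · apply Finsupp.sum_congr
    intro n _
    rw [smul_eq_mul]
    split_ifs
    · rw [kf_smul_right]; ring
    · simp
  · intro n; simp [kf_zero_right]

lemma cc_single (m n : ℤ) (x y : G2 K) :
    cc (Finsupp.single m x) (Finsupp.single n y) = if m + n = 0 then (m : K) * kf x y else 0 := by
  unfold cc
  rw [Finsupp.sum_single_index, Finsupp.sum_single_index]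
  · simp [kf_zero_right]
  · simp [kf_zero_left]

lemma lb_comm (X Y : ℤ →₀ G2 K) : lb X Y = -lb Y X := by
  induction X using Finsupp.induction_linear with
  | zero => rw [lb_zero_left, lb_zero_right, neg_zero]
  | add X X' h h' => rw [lb_add_left, lb_add_right, h, h', neg_add]
  | single m x =>
    induction Y using Finsupp.induction_linear with
    | zero => rw [lb_zero_left, lb_zero_right, neg_zero]
    | add Y Y' h h' => rw [lb_add_left, lb_add_right, h, h', neg_add]
    | single n y =>
      rw [lb_single, lb_single, ← lie_skew x y, Finsupp.single_neg, add_comm m n]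

lemma lb_self (X : ℤ →₀ G2 K) : lb X X = 0 := by
  induction X using Finsupp.induction_linear with
  | zero => exact lb_zero_left _
  | add X X' h h' =>
    rw [lb_add_left, lb_add_right, lb_add_right, h, h', lb_comm X' X, zero_add, add_zero,
      add_neg_cancel]
  | single m x => rw [lb_single, lie_self, Finsupp.single_zero]

lemma cc_comm (X Y : ℤ →₀ G2 K) : cc X Y = -cc Y X := by
  induction X using Finsupp.induction_linear with
  | zero => rw [cc_zero_left, cc_zero_right, neg_zero]
  | add X X' h h' => rw [cc_add_left, cc_add_right, h, h', neg_add]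
  | single m x =>
    induction Y using Finsupp.induction_linear with
    | zero => rw [cc_zero_left, cc_zero_right, neg_zero]
    | add Y Y' h h' => rw [cc_add_left, cc_add_right, h, h', neg_add]
    | single n y =>
      rw [cc_single, cc_single, add_comm n m]
      split_ifs with h
      · have h1 : n = -m := by omega
        rw [h1, kf_comm y x]
        push_cast
        ring
      · simp

lemma cc_self (X : ℤ →₀ G2 K) : cc X X = 0 := by
  induction X using Finsupp.induction_linear with
  | zero => exact cc_zero_left _
  | add X X' h h' =>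
    rw [cc_add_left, cc_add_right, cc_add_right, h, h', cc_comm X' X, zero_add, add_zero,
      add_neg_cancel]
  | single m x =>
    rw [cc_single]
    split_ifs with h
    · have h1 : m = 0 := by omega
      rw [h1]; simp
    · rfl

lemma lb_jacobi (X Y Z : ℤ →₀ G2 K) : lb X (lb Y Z) = lb (lb X Y) Z + lb Y (lb X Z) := by
  induction X using Finsupp.induction_linear with
  | zero => simp [lb_zero_left, lb_zero_right]
  | add X X' h h' => simp only [lb_add_left, lb_add_right, h, h']; abel
  | single m x =>
    induction Y using Finsupp.induction_linear with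
    | zero => simp [lb_zero_left, lb_zero_right]
    | add Y Y' h h' => simp only [lb_add_left, lb_add_right, h, h']; abel
    | single n y =>
      induction Z using Finsupp.induction_linear with
      | zero => simp [lb_zero_right]
      | add Z Z' h h' => simp only [lb_add_right, h, h']; abel
      | single k z =>
        simp only [lb_single]
        rw [leibniz_lie, Finsupp.single_add]
        congr 2
        · ring
        · ring

lemma cc_jacobi (X Y Z : ℤ →₀ G2 K) : cc X (lb Y Z) = cc (lb X Y) Z + cc Y (lb X Z) := by
  induction X using Finsupp.induction_linear with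
  | zero => simp [lb_zero_left, cc_zero_left, cc_zero_right]
  | add X X' h h' => simp only [lb_add_left, cc_add_left, cc_add_right, h, h']; abel
  | single m x =>
    induction Y using Finsupp.induction_linear with
    | zero => simp [lb_zero_left, lb_zero_right, cc_zero_left, cc_zero_right]
    | add Y Y' h h' => simp only [lb_add_left, lb_add_right, cc_add_left, cc_add_right, h, h']; abel
    | single n y =>
      induction Z using Finsupp.induction_linear with
      | zero => simp [lb_zero_right, cc_zero_right]
      | add Z Z' h h' => simp only [lb_add_right, cc_add_right, h, h']; abel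
      | single k z =>
        simp only [lb_single, cc_single]
        have e1 : m + n + k = m + (n + k) := by ring
        have e2 : n + (m + k) = m + (n + k) := by ring
        rw [e1, e2]
        split_ifs with h
        · have h1 : kf y ⁅x, z⁆ = -kf x ⁅y, z⁆ := by
            rw [← kf_inv, ← lie_skew, kf_neg_left, kf_inv]
          rw [h1, kf_inv]
          push_cast
          ring
        · simp

end

section

variable {K : Type u} [Field K]

lemma Aff.ext' {x y : Aff K} (h1 : x.1 = y.1) (h2 : x.2 = y.2) : x = y := Prod.ext h1 h2

lemma br_fst (x y : Aff K) : (⁅x, y⁆ : Aff K).1 = lb x.1 y.1 := rfl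
lemma br_snd (x y : Aff K) : (⁅x, y⁆ : Aff K).2 = cc x.1 y.1 := rfl
lemma add_fst (x y : Aff K) : (x + y).1 = x.1 + y.1 := rfl
lemma add_snd (x y : Aff K) : (x + y).2 = x.2 + y.2 := rfl
lemma smul_fst (r : K) (y : Aff K) : (r • y).1 = r • y.1 := rfl
lemma smul_snd (r : K) (y : Aff K) : (r • y).2 = r * y.2 := rfl

end

end Pool.Agent.H391.CV
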