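import Pool.Agent.H391.CV.D2

set_option autoImplicit false
set_option linter.unusedVariables false

/-! The brackets of the affine Lie algebra. -/

attribute [local instance 100] LieRing.ofAssociativeRing

namespace Pool.Agent.H391.CV

universe u

section

variable {K : Type u} [Field K]

lemma br_el (x y : G2 K) (m n : ℤ) :
    ⁅el x m, el y n⁆ = el ⁅x, y⁆ (m + n) + (if m + n = 0 then (m : K) * kf x y else 0) • cel := by
  apply Aff.ext'
  · rw [br_fst, add_fst, smul_fst]
    change lb (Finsupp.single m x) (Finsupp.single n y) = Finsupp.single (m + n) ⁅x, y⁆ + _ • 0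
    rw [lb_single, smul_zero, add_zero]
  · rw [br_snd, add_snd, smul_snd]
    change cc (Finsupp.single m x) (Finsupp.single n y) = 0 + _ * 1
    rw [cc_single, mul_one, zero_add]

lemma br_cel (x : Aff K) : ⁅(cel : Aff K), x⁆ = 0 :=
  Aff.ext' (lb_zero_left x.1) (cc_zero_left x.1)

lemma br_cel' (x : Aff K) : ⁅x, (cel : Aff K)⁆ = 0 :=
  Aff.ext' (lb_zero_right x.1) (cc_zero_right x.1)

lemma el_add (x y : G2 K) (n : ℤ) : el (x + y) n = el x n + el y n :=
  Aff.ext' (Finsupp.single_add _ _ _) (by rw [add_snd]; exact (add_zero _).symm)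

lemma el_smul (r : K) (x : G2 K) (n : ℤ) : el (r • x) n = r • el x n :=
  Aff.ext' (by rw [smul_fst]; exact (Finsupp.smul_single _ _ _).symm)
    (by rw [smul_snd]; exact (mul_zero _).symm)

lemma el_zero (n : ℤ) : el (0 : G2 K) n = 0 :=
  Aff.ext' (Finsupp.single_zero _) rfl

lemma el_neg (x : G2 K) (n : ℤ) : el (-x) n = -el x n := by
  rw [eq_neg_iff_add_eq_zero, ← el_add, neg_add_cancel, el_zero]

/-- an element from its two components -/
def mkA (X : ℤ →₀ G2 K) (r : K) : Aff K := (X, r)

lemma mkA_eq (X : ℤ →₀ G2 K) (r : K) : mkA X r = mkA X 0 + r • cel := by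
  apply Aff.ext'
  · rw [add_fst, smul_fst]
    change X = X + r • 0
    rw [smul_zero, add_zero]
  · rw [add_snd, smul_snd]
    change r = 0 + r * 1
    rw [mul_one, zero_add]

lemma mkA_add (X Y : ℤ →₀ G2 K) : mkA (X + Y) 0 = mkA X 0 + mkA Y 0 :=
  Aff.ext' rfl (by rw [add_snd]; exact (add_zero _).symm)

/-- the elements `x_n` and `c` span -/
lemma Aff.ind {P : Aff K → Prop} (h0 : P 0) (ha : ∀ x y, P x → P y → P (x + y))
    (he : ∀ x n, P (el x n)) (hc : ∀ r : K, P (r • cel)) (z : Aff K) : P z := by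
  have h1 : ∀ X : ℤ →₀ G2 K, P (mkA X 0) := by
    intro X
    induction X using Finsupp.induction_linear with
    | zero => exact h0
    | add X Y hX hY => rw [mkA_add]; exact ha _ _ hX hY
    | single n x => exact he x n
  have h2 : z = mkA z.1 z.2 := rfl
  rw [h2, mkA_eq]
  exact ha _ _ (h1 _) (hc _)

end

end Pool.Agent.H391.CV
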