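import Pool.Agent.H391.CV.A2
import Pool.Graph.R_pool_sql_team_seeded_3997aac3.Q19.VaD

set_option autoImplicit false
set_option linter.unusedVariables false

/-! The universal property of the vacuum module. -/

attribute [local instance 100] LieRing.ofAssociativeRing

namespace Pool.Agent.H391.CV

universe u

variable {K : Type u} [Field K] {κ : K}

/-- induction on the vacuum module -/
lemma Vk.ind {P : Vk K κ → Prop} (h1 : P (vac κ)) (ha : ∀ u v, P u → P v → P (u + v))
    (hs : ∀ (r : K) u, P u → P (r • u)) (hz : ∀ (z : Aff K) u, P u → P (iA z • u))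
    (v : Vk K κ) : P v := by
  obtain ⟨w, rfl⟩ := Submodule.Quotient.mk_surjective _ v
  have h2 : ∀ w : UAff K, P (w • vac κ) := by
    intro w
    induction w using Pool.Agent.Q19.Va.UAff.ind with
    | h1 => rw [one_smul]; exact h1
    | ha u v hu hv => rw [add_smul]; exact ha _ _ hu hv
    | hs r u hu => rw [smul_assoc]; exact hs r _ hu
    | hz z u hu => rw [mul_smul]; exact hz z _ hu
  have h3 := h2 w
  rw [vac, ← Submodule.Quotient.mk_smul, smul_eq_mul, mul_one] at h3
  exact h3

/-- the action of `x_n` on `V` -/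
noncomputable def act (κ : K) (x : G2 K) (n : ℤ) : Module.End K (Vk K κ) :=
  Module.toModuleEnd K (S := UAff K) (Vk K κ) (iA (el x n))

lemma act_apply (x : G2 K) (n : ℤ) (v : Vk K κ) : act κ x n v = iA (el x n) • v := rfl

lemma gen_smul_vac {x : G2 K} {n : ℤ} (hn : 0 ≤ n) : iA (el x n) • vac κ = 0 := by
  rw [vac, ← Submodule.Quotient.mk_smul, smul_eq_mul, mul_one, Submodule.Quotient.mk_eq_zero]
  exact Submodule.subset_span (Or.inl ⟨x, n, hn, rfl⟩)

lemma act_vac {x : G2 K} {n : ℤ} (hn : 0 ≤ n) : act κ x n (vac κ) = 0 := gen_smul_vac hn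

lemma cel_comm (u : UAff K) : iA cel * u = u * iA cel := by
  induction u using Pool.Agent.Q19.Va.UAff.ind with
  | h1 => rw [one_mul, mul_one]
  | ha u v hu hv => rw [mul_add, add_mul, hu, hv]
  | hs r u hu => rw [mul_smul_comm, smul_mul_assoc, hu]
  | hz z u hu =>
    have h1 : iA cel * iA z = iA z * iA cel := by
      have h2 : ⁅(iA (cel : Aff K) : UAff K), (iA z : UAff K)⁆ = 0 := by
        rw [← LieHom.map_lie, br_cel, map_zero]
      rw [LieRing.of_associative_ring_bracket, sub_eq_zero] at h2
      exact h2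
    rw [← mul_assoc, h1, mul_assoc, hu, mul_assoc]

/-- `c` acts by `κ` -/
lemma cel_smul (v : Vk K κ) : (iA cel : UAff K) • v = κ • v := by
  obtain ⟨w, rfl⟩ := Submodule.Quotient.mk_surjective _ v
  rw [← Submodule.Quotient.mk_smul, ← Submodule.Quotient.mk_smul, Submodule.Quotient.eq,
    smul_eq_mul, cel_comm]
  have h1 : w * iA cel - κ • w = w • (iA cel - algebraMap K (UAff K) κ) := by
    rw [smul_eq_mul, mul_sub, ← Algebra.commutes, ← Algebra.smul_def]
  rw [h1]
  exact Submodule.smul_mem _ _ (Submodule.subset_span (Or.inr rfl))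

/-- commutation of the operators -/
lemma act_comm (x y : G2 K) (m n : ℤ) (v : Vk K κ) : act κ x m (act κ y n v) =
    act κ y n (act κ x m v) + act κ ⁅x, y⁆ (m + n) v +
      ((if m + n = 0 then (m : K) * kf x y else 0) * κ) • v := by
  have h1 : (iA (el x m) : UAff K) * iA (el y n) = iA (el y n) * iA (el x m) +
      iA (el ⁅x, y⁆ (m + n)) + (if m + n = 0 then (m : K) * kf x y else 0) • iA cel := by
    have h2 : ⁅(iA (el x m) : UAff K), (iA (el y n) : UAff K)⁆ =
        iA (el ⁅x, y⁆ (m + n)) + (if m + n = 0 then (m : K) * kf x y else 0) • iA cel := by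
      rw [← LieHom.map_lie, br_el, map_add, map_smul]
    rw [LieRing.of_associative_ring_bracket] at h2
    rw [add_assoc, ← h2]
    abel
  rw [act_apply, act_apply, ← mul_smul, h1, add_smul, add_smul, smul_assoc, cel_smul,
    smul_smul, mul_smul]
  rfl

/-- the universal property -/
lemma Vk.lift {M : Type u} [AddCommGroup M] [Module K M]
    (φ : Aff K →ₗ⁅K⁆ Module.End K M) (m : M)
    (h0 : ∀ (x : G2 K) (n : ℤ), 0 ≤ n → φ (el x n) m = 0) (hc : φ cel m = κ • m) :
    ∃ Φ : Vk K κ →ₗ[K] M, Φ (vac κ) = m ∧ ∀ (z : Aff K) (v : Vk K κ), Φ (iA z • v) = φ z (Φ v) := by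
  let F := UniversalEnvelopingAlgebra.lift K φ
  let G : UAff K →ₗ[K] M := (LinearMap.applyₗ m) ∘ₗ F.toLinearMap
  have hG : ∀ u, G u = F u m := fun u => rfl
  have hJ : ∀ u ∈ Jv K κ, G u = 0 := by
    intro u hu
    unfold Jv at hu
    induction hu using Submodule.span_induction with
    | mem x hx =>
      rcases hx with ⟨x, n, hn, rfl⟩ | hx
      · rw [hG]
        have : F (iA (el x n)) = φ (el x n) := UniversalEnvelopingAlgebra.lift_ι_apply K φ _
        rw [this]; exact h0 x n hn
      · rw [Set.mem_singleton_iff] at hx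
        rw [hx, hG, map_sub]
        have : F (iA cel) = φ cel := UniversalEnvelopingAlgebra.lift_ι_apply K φ _
        rw [this, AlgHom.commutes]
        change φ cel m - (algebraMap K (Module.End K M) κ) m = 0
        rw [hc, Module.algebraMap_end_apply, sub_self]
    | zero => exact map_zero _
    | add x y _ _ hx hy => rw [map_add, hx, hy, add_zero]
    | smul a x _ hx =>
      rw [hG, smul_eq_mul, map_mul]
      change F a (F x m) = 0
      rw [← hG, hx, map_zero]
  let Φ : Vk K κ →ₗ[K] M :=
    { toFun := Quotient.lift (fun u => G u) (by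
        intro a b hab
        have h1 : a - b ∈ Jv K κ := (Submodule.quotientRel_def _).1 hab
        have h2 := hJ _ h1
        rw [map_sub, sub_eq_zero] at h2
        exact h2)
      map_add' := by
        intro a b
        obtain ⟨a, rfl⟩ := Submodule.Quotient.mk_surjective _ a
        obtain ⟨b, rfl⟩ := Submodule.Quotient.mk_surjective _ b
        exact map_add G a b
      map_smul' := by
        intro r a
        obtain ⟨a, rfl⟩ := Submodule.Quotient.mk_surjective _ a
        exact map_smul G r a }
  have hΦ : ∀ u : UAff K, Φ (Submodule.Quotient.mk u) = G u := fun u => rfl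
  refine ⟨Φ, ?_, ?_⟩
  · change G 1 = m
    rw [hG, map_one]; rfl
  · intro z v
    obtain ⟨w, rfl⟩ := Submodule.Quotient.mk_surjective _ v
    rw [← Submodule.Quotient.mk_smul, hΦ, hΦ, hG, hG, smul_eq_mul, map_mul]
    have : F (iA z) = φ z := UniversalEnvelopingAlgebra.lift_ι_apply K φ _
    rw [this]; rfl



/-- the action as a homomorphism of Lie algebras -/
noncomputable def actL (κ : K) : Aff K →ₗ⁅K⁆ Module.End K (Vk K κ) :=
  (Algebra.lsmul K K (Vk K κ) : UAff K →ₐ[K] Module.End K (Vk K κ)).toLieHom.comp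
    (UniversalEnvelopingAlgebra.ι K)

lemma actL_apply (z : Aff K) (v : Vk K κ) : actL κ z v = iA z • v := rfl

lemma actL_el (x : G2 K) (n : ℤ) : actL κ (el x n) = act κ x n := rfl

lemma actL_cel (v : Vk K κ) : actL κ cel v = κ • v := cel_smul v

lemma actL_lie (y z : Aff K) (v : Vk K κ) :
    actL κ ⁅y, z⁆ v = actL κ y (actL κ z v) - actL κ z (actL κ y v) := by
  rw [LieHom.map_lie, LieRing.of_associative_ring_bracket]
  rfl


/-- the words with negative exponents span the vacuum module -/
lemma Vk.negInd {P : Vk K κ → Prop} (h1 : P (vac κ)) (ha : ∀ u v, P u → P v → P (u + v))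
    (hs : ∀ (r : K) u, P u → P (r • u)) (hz : ∀ (x : G2 K) (n : ℤ) u, n < 0 → P u → P (act κ x n u))
    (v : Vk K κ) : P v := by
  let S : Submodule K (Vk K κ) := sInf {S | vac κ ∈ S ∧ ∀ (x : G2 K) (n : ℤ), n < 0 →
    ∀ u ∈ S, act κ x n u ∈ S}
  have hS1 : vac κ ∈ S := by
    rw [Submodule.mem_sInf]
    exact fun T hT => hT.1
  have hS2 : ∀ (x : G2 K) (n : ℤ), n < 0 → ∀ u ∈ S, act κ x n u ∈ S := by
    intro x n hn u hu
    rw [Submodule.mem_sInf] at hu ⊢
    exact fun T hT => hT.2 x n hn u (hu T hT)
  have hS3 : ∀ u ∈ S, ∀ (x : G2 K) (n : ℤ), act κ x n u ∈ S := by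
    intro u hu
    let T : Submodule K (Vk K κ) :=
      { carrier := {u | u ∈ S ∧ ∀ (x : G2 K) (n : ℤ), act κ x n u ∈ S}
        add_mem' := by
          intro a b ha' hb'
          refine ⟨S.add_mem ha'.1 hb'.1, fun x n => ?_⟩
          rw [map_add]; exact S.add_mem (ha'.2 x n) (hb'.2 x n)
        zero_mem' := by
          refine ⟨S.zero_mem, fun x n => ?_⟩
          rw [map_zero]; exact S.zero_mem
        smul_mem' := by
          intro r a ha'
          refine ⟨S.smul_mem r ha'.1, fun x n => ?_⟩
          rw [map_smul]; exact S.smul_mem r (ha'.2 x n) }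
    have hT : u ∈ T := by
      have h2 : S ≤ T := by
        apply sInf_le
        constructor
        · refine ⟨hS1, fun x n => ?_⟩
          rcases lt_or_ge n 0 with hn | hn
          · exact hS2 x n hn _ hS1
          · rw [act_vac hn]; exact S.zero_mem
        · rintro x n hn u ⟨hu1, hu2⟩
          refine ⟨hu2 x n, fun y m => ?_⟩
          rw [act_comm]
          exact S.add_mem (S.add_mem (hS2 x n hn _ (hu2 y m)) (hu2 _ _)) (S.smul_mem _ hu1)
      exact h2 hu
    exact hT.2
  have h2 : ∀ v, v ∈ S := by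
    intro v
    induction v using Vk.ind with
    | h1 => exact hS1
    | ha u v hu hv => exact S.add_mem hu hv
    | hs r u hu => exact S.smul_mem r hu
    | hz z u hu =>
      change actL κ z u ∈ S
      induction z using Aff.ind with
      | h0 => rw [map_zero]; exact S.zero_mem
      | ha y z hy hz => rw [map_add]; exact S.add_mem hy hz
      | he x n => exact hS3 u hu x n
      | hc r =>
        rw [map_smul, LinearMap.smul_apply, actL_cel]
        exact S.smul_mem r (S.smul_mem κ hu)
  let T : Submodule K (Vk K κ) :=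
    { carrier := {u | P u}
      add_mem' := fun {a b} ha' hb' => ha a b ha' hb'
      zero_mem' := by
        have := hs 0 _ h1
        rw [zero_smul] at this
        exact this
      smul_mem' := fun r a ha' => hs r a ha' }
  have h3 : S ≤ T := sInf_le ⟨h1, fun x n hn u hu => hz x n u hn hu⟩
  exact h3 (h2 v)



end Pool.Agent.H391.CV
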