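import Pool.Agent.H391.CV.T

set_option autoImplicit false

/-! Definitions, first part: the Lie algebra of type `G₂`, its invariant form, and the affine Lie
algebra. -/

namespace Pool.Agent.H391.CV

universe u

/-- The Lie algebra of type `G₂` over `R`: coordinate vectors in the Chevalley basis. -/
def G2 (R : Type u) [CommRing R] : Type u := Fin 14 → R

section

variable {R : Type u} [CommRing R]

instance : AddCommGroup (G2 R) := (inferInstance : AddCommGroup (Fin 14 → R))

instance : Module R (G2 R) := (inferInstance : Module R (Fin 14 → R))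

/-- the basis vector `b k` -/
def e (k : Fin 14) : G2 R := (Pi.single k 1 : Fin 14 → R)

/-- the vector given by a list of pairs (coefficient, index) -/
def vec (l : List (ℤ × Fin 14)) : G2 R := (l.map fun t => (t.1 : R) • (e t.2 : G2 R)).sum

/-- the bracket: `[∑ x_i b_i, ∑ y_j b_j] = ∑ x_i y_j [b_i, b_j]` -/
instance : Bracket (G2 R) (G2 R) where
  bracket x y := ∑ i : Fin 14, ∑ j : Fin 14, (x i * y j) • (vec (br i j) : G2 R)

/-- the normalised invariant form -/
def kf (x y : G2 R) : R := ∑ i : Fin 14, ∑ j : Fin 14, x i * y j * (fm i j : R)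

end

section

variable {K : Type u} [Field K]

/-- the bracket of the loop algebra: `⁅t^m x, t^n y⁆ = t^(m+n) ⁅x, y⁆` -/
noncomputable def lb (X Y : ℤ →₀ G2 K) : ℤ →₀ G2 K :=
  X.sum fun m x => Y.sum fun n y => Finsupp.single (m + n) ⁅x, y⁆

/-- the cocycle: `(t^m x, t^n y) ↦ m δ_(m+n,0) ⟨x, y⟩` -/
noncomputable def cc (X Y : ℤ →₀ G2 K) : K :=
  X.sum fun m x => Y.sum fun n y => if m + n = 0 then (m : K) * kf x y else 0

end

/-- the affine Lie algebra `g ⊗ K[t, t⁻¹] ⊕ K c`; an element is a pair of a loop and a
multiple of `c` -/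
def Aff (K : Type u) [Field K] : Type u := (ℤ →₀ G2 K) × K

section

variable {K : Type u} [Field K]

noncomputable instance : AddCommGroup (Aff K) :=
  (inferInstance : AddCommGroup ((ℤ →₀ G2 K) × K))

noncomputable instance : Module K (Aff K) :=
  (inferInstance : Module K ((ℤ →₀ G2 K) × K))

noncomputable instance : Bracket (Aff K) (Aff K) where
  bracket x y := (lb x.1 y.1, cc x.1 y.1)

/-- the element `x_n = t^n ⊗ x` -/
noncomputable def el (x : G2 K) (n : ℤ) : Aff K := (Finsupp.single n x, 0)

/-- the central element `c` -/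
noncomputable def cel : Aff K := (0, 1)

end

end Pool.Agent.H391.CV
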