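import Pool.Agent.H391.CV.A

set_option autoImplicit false

/-! Definitions, second part: the universal affine vertex algebra at the critical level, vertex
algebras, the Harish-Chandra centre and the `2`-centre. -/

namespace Pool.Agent.H391.CV

universe u

section

variable {K : Type u} [Field K]

noncomputable instance : LieRing (Aff K) where
  add_lie x y z := Aff.ext' (lb_add_left _ _ _) (cc_add_left _ _ _)
  lie_add x y z := Aff.ext' (lb_add_right _ _ _) (cc_add_right _ _ _)
  lie_self x := Aff.ext' (lb_self _) (cc_self _)
  leibniz_lie x y z := Aff.ext' (lb_jacobi _ _ _) (cc_jacobi _ _ _)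

noncomputable instance : LieAlgebra K (Aff K) where
  lie_smul r x y := Aff.ext' (lb_smul_right _ _ _) (cc_smul_right _ _ _)

end

/-- the enveloping algebra of the affine Lie algebra -/
abbrev UAff (K : Type u) [Field K] : Type u := UniversalEnvelopingAlgebra K (Aff K)

/-- the canonical map -/
noncomputable abbrev iA {K : Type u} [Field K] (z : Aff K) : UAff K :=
  UniversalEnvelopingAlgebra.ι K z

/-- the left ideal generated by the `x_n`, `n ≥ 0`, and `c - κ` -/
noncomputable def Jv (K : Type u) [Field K] (κ : K) : Submodule (UAff K) (UAff K) :=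
  Submodule.span (UAff K)
    ({u | ∃ (x : G2 K) (n : ℤ), 0 ≤ n ∧ u = iA (el x n)} ∪ {iA cel - algebraMap K (UAff K) κ})

/-- the universal affine vertex algebra `V^κ(g)`, as a module -/
abbrev Vk (K : Type u) [Field K] (κ : K) : Type u := UAff K ⧸ Jv K κ

/-- the vacuum vector -/
noncomputable def vac {K : Type u} [Field K] (κ : K) : Vk K κ := Submodule.Quotient.mk 1

/-- `y` is the `2`-nd power `x^[2]` of `x` for the restricted structure of the Lie algebra of type
`G₂` in characteristic two: it is the element with `ad y = (ad x) ^ 2` -/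
def IsPow {K : Type u} [Field K] (x y : G2 K) : Prop := ∀ z : G2 K, ⁅y, z⁆ = ⁅x, ⁅x, z⁆⁆

/-- the algebra `Z₀'` generated by the elements `(x_n)^2 - (x^[2])_(2n)` -/
noncomputable def Z0 (K : Type u) [Field K] : Subalgebra K (UAff K) :=
  Algebra.adjoin K {u | ∃ (x y : G2 K) (n : ℤ), IsPow x y ∧
    u = iA (el x n) ^ 2 - iA (el y (2 * n))}

/-- the left-hand side of the Borcherds identity for the products `P n a b = a_(n) b` -/
noncomputable def borL {V : Type u} [AddCommGroup V] (P : ℤ → V → V → V) (a b c : V)
    (l m n : ℤ) : V :=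
  ∑ᶠ i : ℕ, (Ring.choose m i) • P (m + n - i) (P (l + i) a b) c

/-- the right-hand side of the Borcherds identity -/
noncomputable def borR {V : Type u} [AddCommGroup V] (P : ℤ → V → V → V) (a b c : V)
    (l m n : ℤ) : V :=
  ∑ᶠ i : ℕ, ((-1) ^ i * Ring.choose l i) •
    (P (m + l - i) a (P (n + i) b c) - (Int.negOnePow l : ℤ) • P (n + l - i) b (P (m + i) a c))

/-- vertex algebras over a field, with all products `a_(n) b` and the Borcherds identity -/
structure VertexAlgebra (K : Type u) [Field K] (V : Type u) [AddCommGroup V] [Module K V] where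
  /-- the vacuum -/
  one : V
  /-- the products `a_(n) b` -/
  prod : ℤ → V → V → V
  add_prod : ∀ n a a' b, prod n (a + a') b = prod n a b + prod n a' b
  prod_add : ∀ n a b b', prod n a (b + b') = prod n a b + prod n a b'
  smul_prod : ∀ n (r : K) a b, prod n (r • a) b = r • prod n a b
  prod_smul : ∀ n (r : K) a b, prod n a (r • b) = r • prod n a b
  truncation : ∀ a b, ∃ N : ℤ, ∀ n, N ≤ n → prod n a b = 0
  one_prod : ∀ n b, prod n one b = if n = -1 then b else 0
  prod_one : ∀ n a, 0 ≤ n → prod n a one = 0
  prod_neg_one : ∀ a, prod (-1) a one = a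
  borcherds : ∀ a b c l m n, borL prod a b c l m n = borR prod a b c l m n

/-- the centre of a vertex algebra -/
def VertexAlgebra.centre {K : Type u} [Field K] {V : Type u} [AddCommGroup V] [Module K V]
    (A : VertexAlgebra K V) : Set V :=
  {v | ∀ (a : V) (n : ℤ), 0 ≤ n → A.prod n a v = 0}

/-- the vertex subalgebra generated by a set: the intersection of the subspaces that contain the
vacuum and the set and are closed under all products -/
def VertexAlgebra.gen {K : Type u} [Field K] {V : Type u} [AddCommGroup V] [Module K V]
    (A : VertexAlgebra K V) (S : Set V) : Set V :=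
  {v | ∀ W : Submodule K V, A.one ∈ W → S ⊆ W →
    (∀ (n : ℤ), ∀ a ∈ W, ∀ b ∈ W, A.prod n a b ∈ W) → v ∈ W}

/-- noncommutative integral polynomials in symbols for the elements `(b a)_(-n-1)` -/
abbrev FW : Type := FreeAlgebra ℤ (ℕ × Fin 14)

/-- the value of a noncommutative polynomial in the enveloping algebra -/
noncomputable def eU (K : Type u) [Field K] : FW →ₐ[ℤ] UAff K :=
  FreeAlgebra.lift ℤ (fun t => iA (el (e t.2 : G2 K) (-(t.1 : ℤ) - 1)))

/-- the vector `P |0⟩` -/
noncomputable def lat {K : Type u} [Field K] (κ : K) (P : FW) : Vk K κ := eU K P • vac κ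

/-- the critical level `-h^∨ = -4` of type `G₂`, as an element of the field -/
def crit (K : Type u) [Field K] : K := ((-4 : ℤ) : K)

/-- the universal affine vertex algebra `V^κ(g)` of type `G₂` at the critical level -/
def VV (K : Type u) [Field K] : Type u := Vk K (crit K)

noncomputable instance (K : Type u) [Field K] : AddCommGroup (VV K) :=
  (inferInstance : AddCommGroup (Vk K (crit K)))

noncomputable instance (K : Type u) [Field K] : Module K (VV K) :=
  (inferInstance : Module K (Vk K (crit K)))

/-- the vacuum vector -/
noncomputable def one (K : Type u) [Field K] : VV K := vac (crit K)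

/-- the operator `x_n` -/
noncomputable def op {K : Type u} [Field K] (x : G2 K) (n : ℤ) (v : VV K) : VV K :=
  let w : Vk K (crit K) := v
  iA (el x n) • w

/-- the vector `P |0⟩` for an integral noncommutative polynomial `P` in the symbols of the
`(b a)_(-n-1)`; these vectors form the integral form of `V^κ(g)` -/
noncomputable def latt (K : Type u) [Field K] (P : FreeAlgebra ℤ (ℕ × Fin 14)) : VV K :=
  lat (crit K) P

/-- the Feigin-Frenkel centre of `V^κ(g)` over the complex numbers: the vectors killed by all
nonnegative modes -/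
def ffCentre : Set (VV ℂ) := {w | ∀ (x : G2 ℂ) (n : ℤ), 0 ≤ n → op x n w = 0}

/-- the image over `K` of the intersection of the Feigin-Frenkel centre with the integral form -/
def hcCentre (K : Type u) [Field K] : Set (VV K) :=
  {v | ∃ P : FreeAlgebra ℤ (ℕ × Fin 14), latt ℂ P ∈ ffCentre ∧ v = latt K P}

/-- the `2`-centre `Z₀' |0⟩` -/
def twoCentre (K : Type u) [Field K] : Set (VV K) := {v | ∃ z ∈ Z0 K, v = z • vac (crit K)}

end Pool.Agent.H391.CV
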