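import Pool.Agent.H391.CV.B

set_option autoImplicit false
set_option linter.unusedVariables false

/-! Linear maps out of the vacuum module that are compatible with the negative modes. -/

attribute [local instance 100] LieRing.ofAssociativeRing

namespace Pool.Agent.H391.CV

universe u

variable {K : Type u} [Field K] {κ : K}

open Pool.Agent.Q19.Va (US iS exists_induced)

lemma lb_apply_zero (P : ℤ → Prop) (hP : ∀ m n, P m → P n → P (m + n)) (X Y : ℤ →₀ G2 K)
    (hX : ∀ n, ¬ P n → X n = 0) (hY : ∀ n, ¬ P n → Y n = 0) (n : ℤ) (hn : ¬ P n) :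
    lb X Y n = 0 := by
  unfold lb
  rw [Finsupp.sum_apply]
  apply Finset.sum_eq_zero
  intro m hm
  change (Y.sum fun k y => Finsupp.single (m + k) ⁅X m, y⁆) n = 0
  rw [Finsupp.sum_apply]
  apply Finset.sum_eq_zero
  intro k hk
  change (Finsupp.single (m + k) ⁅X m, Y k⁆) n = 0
  rw [Finsupp.single_apply, if_neg]
  intro h
  apply hn
  rw [← h]
  apply hP
  · by_contra h1
    exact (Finsupp.mem_support_iff.1 hm) (hX m h1)
  · by_contra h1
    exact (Finsupp.mem_support_iff.1 hk) (hY k h1)

lemma cc_zero_of (P : ℤ → Prop) (hP : ∀ m n, P m → P n → m + n = 0 → m = 0) (X Y : ℤ →₀ G2 K)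
    (hX : ∀ n, ¬ P n → X n = 0) (hY : ∀ n, ¬ P n → Y n = 0) : cc X Y = 0 := by
  unfold cc
  apply Finset.sum_eq_zero
  intro m hm
  apply Finset.sum_eq_zero
  intro k hk
  simp only
  split_ifs with h
  · have h1 : P m := by
      by_contra h1
      exact (Finsupp.mem_support_iff.1 hm) (hX m h1)
    have h2 : P k := by
      by_contra h1
      exact (Finsupp.mem_support_iff.1 hk) (hY k h1)
    rw [hP m k h1 h2 h]
    simp
  · rfl

/-- the loops with negative exponents only -/
noncomputable def NegA (K : Type u) [Field K] : LieSubalgebra K (Aff K) where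
  carrier := {z | z.2 = 0 ∧ ∀ n, ¬ (n < 0) → z.1 n = 0}
  add_mem' := by
    rintro a b ⟨ha1, ha2⟩ ⟨hb1, hb2⟩
    refine ⟨by rw [add_snd, ha1, hb1, add_zero], fun n hn => ?_⟩
    rw [add_fst, Finsupp.add_apply, ha2 n hn, hb2 n hn, add_zero]
  zero_mem' := ⟨rfl, fun n hn => rfl⟩
  smul_mem' := by
    rintro r a ⟨ha1, ha2⟩
    refine ⟨by rw [smul_snd, ha1, mul_zero], fun n hn => ?_⟩
    rw [smul_fst, Finsupp.smul_apply, ha2 n hn, smul_zero]
  lie_mem' := by
    rintro a b ⟨ha1, ha2⟩ ⟨hb1, hb2⟩
    refine ⟨?_, ?_⟩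
    · rw [br_snd]
      exact cc_zero_of (fun n => n < 0) (by intro m n h1 h2 h3; omega) _ _ ha2 hb2
    · intro n hn
      rw [br_fst]
      exact lb_apply_zero (fun n => n < 0) (by intro m n h1 h2; omega) _ _ ha2 hb2 n hn

/-- the projection to the negative part -/
noncomputable def prN (K : Type u) [Field K] : Aff K →ₗ[K] NegA K where
  toFun z := ⟨mkA (z.1.filter (fun n => n < 0)) 0, rfl, fun n hn =>
    Finsupp.filter_apply_neg (fun n : ℤ => n < 0) z.1 hn⟩
  map_add' y z := by
    apply Subtype.ext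
    change mkA ((y + z).1.filter _) 0 = mkA _ 0 + mkA _ 0
    rw [← mkA_add, add_fst, Finsupp.filter_add]
  map_smul' r z := by
    apply Subtype.ext
    apply Aff.ext'
    · change (r • z).1.filter _ = r • z.1.filter _
      rw [smul_fst, Finsupp.filter_smul]
    · exact (mul_zero r).symm

lemma prN_fst (z : Aff K) : (prN K z).1.1 = z.1.filter (fun n => n < 0) := rfl

lemma prN_self (a : NegA K) : prN K (a : Aff K) = a := by
  apply Subtype.ext
  apply Aff.ext'
  · rw [prN_fst, Finsupp.filter_eq_self_iff]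
    intro n hn
    by_contra h
    exact hn (a.2.2 n h)
  · exact a.2.1.symm

lemma prN_eq_zero {z : Aff K} (h : prN K z = 0) : ∀ n, ¬ (0 ≤ n) → z.1 n = 0 := by
  intro n hn
  have h1 := congrArg (fun a : NegA K => a.1.1 n) h
  have h2 : (prN K z).1.1 n = z.1 n := by
    rw [prN_fst]
    exact Finsupp.filter_apply_pos (fun n : ℤ => n < 0) z.1 (not_le.1 hn)
  rw [← h2]
  exact h1

lemma prN_zero_of {z : Aff K} (h : ∀ n, n < 0 → z.1 n = 0) : prN K z = 0 := by
  apply Subtype.ext
  apply Aff.ext'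
  · rw [prN_fst]
    ext n : 1
    by_cases hn : n < 0
    · exact (Finsupp.filter_apply_pos (fun n : ℤ => n < 0) z.1 hn).trans (h n hn)
    · exact Finsupp.filter_apply_neg (fun n : ℤ => n < 0) z.1 hn
  · rfl

/-- the character -/
noncomputable def chi (κ : K) : Aff K →ₗ[K] K where
  toFun z := κ * z.2
  map_add' y z := by rw [add_snd, mul_add]
  map_smul' r z := by rw [smul_snd, RingHom.id_apply, smul_eq_mul]; ring


/-- the vacuum module maps to the enveloping algebra of the negative part -/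
theorem exists_Phi (κ : K) : ∃ Φ : Vk K κ →ₗ[K] US (NegA K), Φ (vac κ) = 1 ∧
    ∀ (a : NegA K) (v : Vk K κ), Φ (actL κ (a : Aff K) v) = iS (NegA K) a * Φ v := by
  obtain ⟨Λ, h1, h2⟩ := exists_induced (NegA K) (prN K) prN_self (chi κ)
    (by
      intro a
      change κ * a.1.2 = 0
      rw [a.2.1, mul_zero])
    (by
      intro y z hy hz
      have hy' := prN_eq_zero hy
      have hz' := prN_eq_zero hz
      constructor
      · apply prN_zero_of
        intro n hn
        rw [br_fst]
        exact lb_apply_zero (fun n => 0 ≤ n) (by intro m n h1 h2; omega) _ _ hy' hz' n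
          (not_le.2 hn)
      · change κ * (⁅y, z⁆ : Aff K).2 = 0
        rw [br_snd, cc_zero_of (fun n => 0 ≤ n) (by intro m n h1 h2 h3; omega) _ _ hy' hz',
          mul_zero])
  obtain ⟨Φ, h3, h4⟩ := Vk.lift (κ := κ) Λ (1 : US (NegA K)) (by
    intro x n hn
    rw [h2]
    have e1 : prN K (el x n) = 0 := by
      apply prN_zero_of
      intro m hm
      change (Finsupp.single n x) m = 0
      rw [Finsupp.single_apply, if_neg (by omega)]
    have e2 : chi κ (el x n) = 0 := mul_zero κ
    rw [e1, e2, zero_smul, add_zero]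
    exact map_zero _) (by
    rw [h2]
    have e1 : prN K (cel : Aff K) = 0 := by
      apply prN_zero_of
      intro m hm
      rfl
    have e2 : chi κ (cel : Aff K) = κ := mul_one κ
    rw [e1, e2, show iS (NegA K) 0 = 0 from map_zero _, zero_add])
  refine ⟨Φ, h3, fun a v => ?_⟩
  change Φ (iA (a : Aff K) • v) = _
  rw [h4]
  exact h1 a (Φ v)

lemma el_mem {n : ℤ} (hn : n < 0) (x : G2 K) : el x n ∈ NegA K := by
  refine ⟨rfl, fun m hm => ?_⟩
  change (Finsupp.single n x) m = 0
  rw [Finsupp.single_apply, if_neg (by omega)]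

/-- the vacuum module maps to the enveloping algebra of the affine Lie algebra -/
theorem exists_xi (κ : K) : ∃ ξ : Vk K κ →ₗ[K] UAff K, ξ (vac κ) = 1 ∧
    ∀ (x : G2 K) (n : ℤ) (v : Vk K κ), n < 0 → ξ (act κ x n v) = iA (el x n) * ξ v := by
  obtain ⟨Φ, h1, h2⟩ := exists_Phi κ
  let F : US (NegA K) →ₐ[K] UAff K := UniversalEnvelopingAlgebra.lift K
    ((UniversalEnvelopingAlgebra.ι K : Aff K →ₗ⁅K⁆ UAff K).comp (NegA K).incl)
  refine ⟨F.toLinearMap ∘ₗ Φ, ?_, ?_⟩
  · change F (Φ (vac κ)) = 1
    rw [h1, map_one]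
  · intro x n v hn
    change F (Φ (actL κ (el x n) v)) = iA (el x n) * F (Φ v)
    have h3 := h2 ⟨el x n, el_mem hn x⟩ v
    change Φ (actL κ (el x n) v) = _ at h3
    rw [h3, map_mul]
    congr 1
    exact UniversalEnvelopingAlgebra.lift_ι_apply K _ _

/-- a linear map from the negative part to a commutative algebra that sees the mode `-1` only -/
noncomputable def sigC {S : Type u} [CommRing S] [Algebra K S] (s : G2 K →ₗ[K] S) :
    NegA K →ₗ⁅K⁆ S where
  toFun a := s (a.1.1 (-1))
  map_add' a b := by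
    change s ((a.1 + b.1).1 (-1)) = _
    rw [add_fst, Finsupp.add_apply, map_add]
  map_smul' r a := by
    change s ((r • a.1).1 (-1)) = _
    rw [smul_fst, Finsupp.smul_apply, map_smul]; rfl
  map_lie' := by
    intro a b
    change s ((⁅a.1, b.1⁆ : Aff K).1 (-1)) = _
    rw [br_fst, LieRing.of_associative_ring_bracket, mul_comm, sub_self]
    have h : ∀ n, ¬ (n ≤ -2) → lb a.1.1 b.1.1 n = 0 := by
      intro n hn
      unfold lb
      rw [Finsupp.sum_apply]
      apply Finset.sum_eq_zero
      intro m hm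
      change (b.1.1.sum fun k y => Finsupp.single (m + k) ⁅a.1.1 m, y⁆) n = 0
      rw [Finsupp.sum_apply]
      apply Finset.sum_eq_zero
      intro k hk
      change (Finsupp.single (m + k) ⁅a.1.1 m, b.1.1 k⁆) n = 0
      rw [Finsupp.single_apply, if_neg]
      intro h
      have h1 : m < 0 := by
        by_contra h1
        exact (Finsupp.mem_support_iff.1 hm) (a.2.2 m h1)
      have h2 : k < 0 := by
        by_contra h2
        exact (Finsupp.mem_support_iff.1 hk) (b.2.2 k h2)
      omega
    rw [h _ (by omega), map_zero]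

/-- the symbol maps -/
theorem exists_psi (κ : K) {S : Type u} [CommRing S] [Algebra K S] (s : G2 K →ₗ[K] S) :
    ∃ ψ : Vk K κ →ₗ[K] S, ψ (vac κ) = 1 ∧
      (∀ (x : G2 K) (v : Vk K κ), ψ (act κ x (-1) v) = s x * ψ v) ∧
      (∀ (x : G2 K) (n : ℤ) (v : Vk K κ), n < -1 → ψ (act κ x n v) = 0) := by
  obtain ⟨Φ, h1, h2⟩ := exists_Phi κ
  let F : US (NegA K) →ₐ[K] S := UniversalEnvelopingAlgebra.lift K (sigC s)
  have key : ∀ (x : G2 K) (n : ℤ) (v : Vk K κ), n < 0 →
      F (Φ (act κ x n v)) = s ((Finsupp.single n x) (-1)) * F (Φ v) := by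
    intro x n v hn
    have h3 := h2 ⟨el x n, el_mem hn x⟩ v
    change Φ (actL κ (el x n) v) = _ at h3
    change F (Φ (actL κ (el x n) v)) = _
    rw [h3, map_mul]
    congr 1
    exact UniversalEnvelopingAlgebra.lift_ι_apply K (sigC s) _
  refine ⟨F.toLinearMap ∘ₗ Φ, ?_, ?_, ?_⟩
  · change F (Φ (vac κ)) = 1
    rw [h1, map_one]
  · intro x v
    have := key x (-1) v (by omega)
    rw [Finsupp.single_apply, if_pos rfl] at this
    exact this
  · intro x n v hn
    have := key x n v (by omega)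
    rw [Finsupp.single_apply, if_neg (by omega), map_zero, zero_mul] at this
    exact this

end Pool.Agent.H391.CV
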