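import Pool.Agent.H391.CV.N

set_option autoImplicit false
set_option linter.unusedVariables false

/-! The statement in terms of short definitions. -/

attribute [local instance 100] LieRing.ofAssociativeRing

namespace Pool.Agent.H391.CV

universe u

open Polynomial

section

variable (K : Type u) [Field K]

/-- the invariant form is nondegenerate in characteristic two -/
theorem kf_nondeg [CharP K 2] (x : G2 K) (h : ∀ y, kf x y = 0) : x = 0 := by
  have hx : ∀ j : Fin 14, ∑ i : Fin 14, x i * (fm i j : K) = 0 := by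
    intro j
    have h1 := h (e j)
    rw [kf_def] at h1
    rw [← h1]
    apply Finset.sum_congr rfl
    intro i _
    rw [Finset.sum_eq_single j]
    · rw [e_app, if_pos rfl, mul_one]
    · intro b _ hb
      rw [e_app, if_neg hb, mul_zero, zero_mul]
    · intro h; exact absurd (Finset.mem_univ _) h
  have h2 : (2 : K) = 0 := CharTwo.two_eq_zero
  -- modulo two the Gram matrix is a permutation matrix up to a triangular part
  have hp : ∀ j : Fin 14, ∃ k : Fin 14, ∀ i : Fin 14, fm i j % 2 = if i = k then 1 else 0 := by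
    decide +kernel
  have hq : ∀ k : Fin 14, ∃ j : Fin 14, ∀ i : Fin 14, fm i j % 2 = if i = k then 1 else 0 := by
    decide +kernel
  have hcast : ∀ z : ℤ, (z : K) = ((z % 2 : ℤ) : K) := by
    intro z
    have h3 : z = 2 * (z / 2) + z % 2 := by omega
    conv_lhs => rw [h3]
    push_cast
    rw [h2, zero_mul, zero_add]
  funext k
  obtain ⟨j, hj⟩ := hq k
  have h1 := hx j
  rw [Finset.sum_eq_single k] at h1
  · rw [hcast, hj, if_pos rfl, Int.cast_one, mul_one] at h1
    exact h1
  · intro i _ hi
    rw [hcast, hj, if_neg hi, Int.cast_zero, mul_zero]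
  · intro h; exact absurd (Finset.mem_univ _) h

lemma vec_odd [CharP K 2] (l : List (ℤ × Fin 14)) : (vec l : G2 K) =
    (((l.filter fun t => t.1 % 2 == 1).map Prod.snd).map (fun k => (e k : G2 K))).sum := by
  induction l with
  | nil => rfl
  | cons t l ih =>
    rw [vec_cons, ih]
    rcases Int.emod_two_eq_zero_or_one t.1 with h | h
    · have h1 : ((t.1 : ℤ) : K) = 0 := by
        obtain ⟨m, hm⟩ := Int.dvd_of_emod_eq_zero h
        rw [hm]
        push_cast
        rw [CharTwo.two_eq_zero, zero_mul]
      rw [h1, zero_smul, zero_add, List.filter_cons_of_neg (by rw [h]; decide)]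
    · have h1 : ((t.1 : ℤ) : K) = 1 := by
        have h2 : t.1 = 2 * (t.1 / 2) + 1 := by omega
        rw [h2]
        push_cast
        rw [CharTwo.two_eq_zero, zero_mul, zero_add]
      rw [h1, one_smul, List.filter_cons_of_pos (by rw [h]; decide), List.map_cons, List.map_cons,
        List.sum_cons]

/-- the centre of the Lie algebra is zero in characteristic two -/
theorem centre_zero [CharP K 2] (x : G2 K) (h : ∀ z : G2 K, ⁅x, z⁆ = 0) : x = 0 := by
  apply kf_nondeg K x
  intro y
  induction y using G2.ind with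
  | h0 => exact kf_zero_right _
  | ha y z hy hz => rw [kf_add_right, hy, hz, add_zero]
  | hs r a =>
    obtain ⟨i, j, hij⟩ := perf a
    have h1 : (e a : G2 K) = ⁅(e i : G2 K), e j⁆ := by
      rw [show (⁅(e i : G2 K), e j⁆ : G2 K) = vec (br i j) from e_br i j, vec_odd]
      change _ = ((br2 i j).map _).sum
      rw [hij]
      simp
    rw [kf_smul_right, h1, ← kf_inv, h, kf_zero_left, mul_zero]

/-- all coefficients are even -/
def isE (l : List (ℤ × Fin 14)) : Bool := l.all fun t => co l t.2 % 2 == 0

lemma pow_tab : ∀ a : Fin 14, (∀ b, isE (brL a (br a b) ++ br a b) = true) ∨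
    (∀ b, isE (brL a (br a b)) = true) := by decide +kernel

lemma vec_isE [CharP K 2] {l : List (ℤ × Fin 14)} (h : isE l = true) : (vec l : G2 K) = 0 := by
  have h2 : (2 : K) = 0 := CharTwo.two_eq_zero
  funext k
  rw [vec_app, zero_app]
  have hev : ∀ z : ℤ, z % 2 = 0 → (z : K) = 0 := by
    intro z hz
    obtain ⟨m, hm⟩ := Int.dvd_of_emod_eq_zero hz
    rw [hm]
    push_cast
    rw [h2, zero_mul]
  by_cases hk : ∃ t ∈ l, t.2 = k
  · obtain ⟨t, ht, rfl⟩ := hk
    have h1 := List.all_eq_true.1 h t ht
    rw [beq_iff_eq] at h1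
    exact hev _ h1
  · push Not at hk
    have h0 : ∀ l : List (ℤ × Fin 14), (∀ t ∈ l, t.2 ≠ k) → co l k = 0 := by
      intro l
      induction l with
      | nil => intro _; rfl
      | cons t l ih =>
        intro hl
        have h : co (t :: l) k = (if t.2 = k then t.1 else 0) + co l k := by simp [co]
        rw [h, if_neg (hl t List.mem_cons_self), ih (fun t ht => hl t (List.mem_cons_of_mem _ ht)),
          zero_add]
    rw [h0 l hk, Int.cast_zero]

/-- the restricted structure: every element has exactly one `2`-nd power -/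
theorem exists_pow [CharP K 2] (x : G2 K) : ∃! y : G2 K, IsPow x y := by
  have h2 : (2 : K) = 0 := CharTwo.two_eq_zero
  have hex : ∃ y : G2 K, IsPow x y := by
    induction x using G2.ind with
    | h0 => exact ⟨0, fun z => by rw [zero_lie, zero_lie]⟩
    | ha x y hx hy =>
      obtain ⟨x', hx'⟩ := hx
      obtain ⟨y', hy'⟩ := hy
      refine ⟨x' + y' + ⁅x, y⁆, fun z => ?_⟩
      simp only [add_lie, lie_add, hx' z, hy' z, lie_lie]
      have h3 : ∀ w : G2 K, -w = w := by
        intro w
        rw [neg_eq_iff_add_eq_zero, ← two_smul K w, h2, zero_smul]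
      rw [sub_eq_add_neg, h3]
      abel
    | hs r a =>
      have hk : ∃ k : G2 K, IsPow (e a : G2 K) k := by
        have key : ∀ c : Fin 14, (∀ b, isE (brL a (br a b) ++ br c b) = true) ∨
            (∀ b, isE (brL a (br a b)) = true) → ∃ k : G2 K, IsPow (e a : G2 K) k := by
          rintro c (hc | hc)
          · refine ⟨e c, fun z => ?_⟩
            induction z using G2.ind with
            | h0 => rw [lie_zero, lie_zero, lie_zero]
            | ha y z hy hz => rw [lie_add, lie_add, lie_add, hy, hz]
            | hs r b =>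
              rw [lie_smul, lie_smul, lie_smul]
              congr 1
              rw [show (⁅(e a : G2 K), e b⁆ : G2 K) = vec (br a b) from e_br a b,
                show (⁅(e c : G2 K), e b⁆ : G2 K) = vec (br c b) from e_br c b,
                show (⁅(e a : G2 K), (vec (br a b) : G2 K)⁆ : G2 K) = vec (brL a (br a b)) from
                  e_br_vec a _]
              have h4 := vec_isE K (hc b)
              rw [vec_append, add_eq_zero_iff_eq_neg] at h4
              rw [h4, eq_neg_iff_add_eq_zero, ← two_smul K (vec (br c b) : G2 K), h2, zero_smul]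
          · refine ⟨0, fun z => ?_⟩
            rw [zero_lie]
            induction z using G2.ind with
            | h0 => rw [lie_zero, lie_zero]
            | ha y z hy hz => rw [lie_add, lie_add, ← hy, ← hz, add_zero]
            | hs r b =>
              rw [lie_smul, lie_smul]
              rw [show (⁅(e a : G2 K), e b⁆ : G2 K) = vec (br a b) from e_br a b,
                show (⁅(e a : G2 K), (vec (br a b) : G2 K)⁆ : G2 K) = vec (brL a (br a b)) from
                  e_br_vec a _, vec_isE K (hc b), smul_zero]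
        exact key a (pow_tab a)
      obtain ⟨k, hk⟩ := hk
      refine ⟨(r * r) • k, fun z => ?_⟩
      rw [smul_lie, smul_lie, smul_lie, lie_smul, hk z, smul_smul]
  obtain ⟨y, hy⟩ := hex
  refine ⟨y, hy, fun y' hy' => ?_⟩
  have h3 : y' - y = 0 := by
    apply centre_zero
    intro z
    rw [sub_lie, hy z, hy' z, sub_self]
  exact sub_eq_zero.1 h3

/-- the main theorem -/
theorem final [IsAlgClosed K] [CharP K 2] : ∃ v : VV K,
    (∀ (x : G2 K) (n : ℤ), 0 ≤ n → op x n v = 0) ∧
    ∀ A : VertexAlgebra K (VV K), A.one = one K →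
      (∀ (x : G2 K) (n : ℤ) (u : VV K), A.prod n (op x (-1) (one K)) u = op x n u) →
      v ∈ A.centre ∧ v ∉ A.gen (hcCentre K ∪ twoCentre K) := by
  have hκ : crit K = 0 := by
    have h2 : (2 : K) = 0 := CharTwo.two_eq_zero
    have h4 : ((-4 : ℤ) : K) = -(2 * 2) := by norm_num
    unfold crit
    rw [h4, h2, zero_mul, neg_zero]
  obtain ⟨ω, hω⟩ : ∃ ω : K, ω + ω ^ 2 ≠ 0 := by
    by_contra h
    push Not at h
    have h1 : (Polynomial.X + Polynomial.X ^ 2 : K[X]) = 0 := by
      apply Polynomial.funext
      intro r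
      simp only [eval_add, eval_pow, eval_X, eval_zero]
      exact h r
    have h3 := congrArg (fun f : K[X] => f.coeff 1) h1
    simp [coeff_X_one, coeff_X_pow] at h3
  obtain ⟨ψ, p1, p2, p3⟩ := exists_psi (crit K) (sT K ω)
  refine ⟨lv (crit K) w3, fun x n hn => w3_central (crit K) hκ x n hn, fun A hA1 hA2 => ⟨?_, ?_⟩⟩
  · exact central_of A hA1 hA2 (w3_central (crit K) hκ)
  · refine not_gen A hA1 hA2 ω ψ p1 p2 p3 _ ?_ ?_
    · rintro v (⟨P, hP, rfl⟩ | ⟨z, hz, rfl⟩)
      · have h5 := hc_props K (-4) ω ψ p1 p2 p3 P hP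
        exact ⟨h5.1, h5.2⟩
      · exact ⟨fun x n hn => Z0_central hz x n hn, Z0_symb ω ψ p1 p2 p3 hz⟩
    · rw [w3_symb (crit K) ω ψ p1 p2 p3]
      rintro ⟨-, h6⟩
      rw [coeff_C_mul_X_pow, if_pos rfl] at h6
      exact hω h6

end

end Pool.Agent.H391.CV
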