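import Pool.Agent.H391.CV.T1
import Pool.Agent.H391.CV.D1

set_option autoImplicit false

/-! The Lie algebra of type `G₂` over a commutative ring: brackets and the invariant form. -/

namespace Pool.Agent.H391.CV

universe u

section

variable {R : Type u} [CommRing R]

lemma lie_def (x y : G2 R) :
    ⁅x, y⁆ = ∑ i : Fin 14, ∑ j : Fin 14, (x i * y j) • (vec (br i j) : G2 R) := rfl

lemma kf_def (x y : G2 R) :
    kf x y = ∑ i : Fin 14, ∑ j : Fin 14, x i * y j * (fm i j : R) := rfl

lemma add_app (x y : G2 R) (i : Fin 14) : (x + y) i = x i + y i := rfl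
lemma smul_app (r : R) (x : G2 R) (i : Fin 14) : (r • x) i = r * x i := rfl
lemma zero_app (i : Fin 14) : (0 : G2 R) i = 0 := rfl

lemma e_app (k i : Fin 14) : (e k : G2 R) i = if i = k then 1 else 0 := by
  change (Pi.single k (1 : R) : Fin 14 → R) i = _
  rw [Pi.single_apply]

lemma add_br (x x' y : G2 R) : ⁅x + x', y⁆ = ⁅x, y⁆ + ⁅x', y⁆ := by
  simp only [lie_def, add_app, add_mul, add_smul, Finset.sum_add_distrib]

lemma br_add (x y y' : G2 R) : ⁅x, y + y'⁆ = ⁅x, y⁆ + ⁅x, y'⁆ := by
  simp only [lie_def, add_app, mul_add, add_smul, Finset.sum_add_distrib]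

lemma smul_br (r : R) (x y : G2 R) : ⁅r • x, y⁆ = r • ⁅x, y⁆ := by
  simp only [lie_def, smul_app, Finset.smul_sum, smul_smul, mul_assoc]

lemma br_smul (r : R) (x y : G2 R) : ⁅x, r • y⁆ = r • ⁅x, y⁆ := by
  simp only [lie_def, smul_app, Finset.smul_sum, smul_smul, mul_left_comm]

lemma zero_br (y : G2 R) : ⁅(0 : G2 R), y⁆ = 0 := by
  simp only [lie_def, zero_app, zero_mul, zero_smul, Finset.sum_const_zero]

lemma br_zero (y : G2 R) : ⁅y, (0 : G2 R)⁆ = 0 := by
  simp only [lie_def, zero_app, mul_zero, zero_smul, Finset.sum_const_zero]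

lemma e_br (i j : Fin 14) : ⁅(e i : G2 R), (e j : G2 R)⁆ = vec (br i j) := by
  rw [lie_def, Finset.sum_eq_single i, Finset.sum_eq_single j]
  · simp [e_app]
  · intro b _ hb; simp [e_app, hb]
  · intro h; exact absurd (Finset.mem_univ _) h
  · intro b _ hb; simp [e_app, hb]
  · intro h; exact absurd (Finset.mem_univ _) h

lemma vec_nil : (vec [] : G2 R) = 0 := rfl

lemma vec_cons (t : ℤ × Fin 14) (l : List (ℤ × Fin 14)) :
    (vec (t :: l) : G2 R) = (t.1 : R) • e t.2 + vec l := by
  simp [vec]

lemma vec_append (l l' : List (ℤ × Fin 14)) : (vec (l ++ l') : G2 R) = vec l + vec l' := by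
  simp [vec]

lemma vec_scl (c : ℤ) (l : List (ℤ × Fin 14)) : (vec (scl c l) : G2 R) = (c : R) • vec l := by
  induction l with
  | nil => simp [scl, vec_nil]
  | cons t l ih =>
    have h : scl c (t :: l) = (c * t.1, t.2) :: scl c l := rfl
    rw [h, vec_cons, vec_cons, ih, smul_add, smul_smul]
    push_cast
    rfl

lemma vec_app (l : List (ℤ × Fin 14)) (k : Fin 14) : (vec l : G2 R) k = (co l k : R) := by
  induction l with
  | nil => simp [vec_nil, zero_app, co]
  | cons t l ih =>
    rw [vec_cons, add_app, smul_app, ih, e_app]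
    have h : co (t :: l) k = (if t.2 = k then t.1 else 0) + co l k := by simp [co]
    rw [h]
    by_cases h2 : t.2 = k
    · rw [if_pos h2, if_pos h2.symm]; push_cast; ring
    · rw [if_neg h2, if_neg (fun h => h2 h.symm)]; push_cast; ring

lemma vec_isZ {l : List (ℤ × Fin 14)} (h : isZ l = true) : (vec l : G2 R) = 0 := by
  funext k
  rw [vec_app, zero_app]
  by_cases hk : ∃ t ∈ l, t.2 = k
  · obtain ⟨t, ht, rfl⟩ := hk
    have h1 := List.all_eq_true.1 h t ht
    rw [beq_iff_eq] at h1
    rw [h1, Int.cast_zero]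
  · push Not at hk
    have h0 : ∀ l : List (ℤ × Fin 14), (∀ t ∈ l, t.2 ≠ k) → co l k = 0 := by
      intro l
      induction l with
      | nil => intro _; rfl
      | cons t l ih =>
        intro hl
        have h : co (t :: l) k = (if t.2 = k then t.1 else 0) + co l k := by simp [co]
        rw [h, if_neg (hl t List.mem_cons_self), ih (fun t ht => hl t (List.mem_cons_of_mem _ ht)),
          zero_add]
    rw [h0 l hk, Int.cast_zero]

lemma e_br_vec (i : Fin 14) (l : List (ℤ × Fin 14)) :
    ⁅(e i : G2 R), (vec l : G2 R)⁆ = vec (brL i l) := by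
  induction l with
  | nil => rw [vec_nil, br_zero]; rfl
  | cons t l ih =>
    have h : brL i (t :: l) = scl t.1 (br i t.2) ++ brL i l := by simp [brL]
    rw [h, vec_append, vec_cons, br_add, ih, br_smul, e_br, vec_scl]

lemma G2.ind {P : G2 R → Prop} (h0 : P 0) (ha : ∀ x y, P x → P y → P (x + y))
    (hs : ∀ (r : R) (i : Fin 14), P (r • e i)) (x : G2 R) : P x := by
  have h : x = ∑ i : Fin 14, x i • (e i : G2 R) := by
    funext k
    have h1 : (∑ i : Fin 14, x i • (e i : G2 R)) k = ∑ i : Fin 14, (x i • (e i : G2 R)) k :=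
      Finset.sum_apply k Finset.univ (fun i => (x i • (e i : G2 R) : Fin 14 → R))
    rw [h1, Finset.sum_eq_single k]
    · rw [smul_app, e_app, if_pos rfl, mul_one]
    · intro b _ hb
      rw [smul_app, e_app, if_neg (Ne.symm hb), mul_zero]
    · intro h; exact absurd (Finset.mem_univ _) h
  rw [h]
  exact Finset.sum_induction _ P ha h0 (fun i _ => hs _ _)

lemma br_anti (x y : G2 R) : ⁅x, y⁆ + ⁅y, x⁆ = 0 := by
  induction x using G2.ind with
  | h0 => rw [zero_br, br_zero, add_zero]
  | ha x x' h h' =>
    rw [add_br, br_add]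
    calc _ = (⁅x, y⁆ + ⁅y, x⁆) + (⁅x', y⁆ + ⁅y, x'⁆) := by abel
      _ = 0 := by rw [h, h', add_zero]
  | hs r i =>
    induction y using G2.ind with
    | h0 => rw [zero_br, br_zero, add_zero]
    | ha x x' h h' =>
      rw [add_br, br_add]
      calc _ = (⁅r • e i, x⁆ + ⁅x, r • e i⁆) + (⁅r • e i, x'⁆ + ⁅x', r • e i⁆) := by abel
        _ = 0 := by rw [h, h', add_zero]
    | hs s j =>
      rw [smul_br, br_smul, smul_br, br_smul, e_br, e_br, smul_smul, smul_smul, mul_comm s r,
        ← smul_add, ← vec_append, vec_isZ (anti_br i j), smul_zero]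

lemma br_self (x : G2 R) : ⁅x, x⁆ = 0 := by
  induction x using G2.ind with
  | h0 => exact zero_br _
  | ha x y h h' =>
    rw [add_br, br_add, br_add, h, h', zero_add, add_zero, br_anti]
  | hs r i => rw [smul_br, br_smul, e_br, self_br, vec_nil, smul_zero, smul_zero]

lemma br_neg (x y : G2 R) : ⁅x, y⁆ = -⁅y, x⁆ := eq_neg_of_add_eq_zero_left (br_anti x y)

lemma br_jac (x y z : G2 R) : ⁅x, ⁅y, z⁆⁆ = ⁅⁅x, y⁆, z⁆ + ⁅y, ⁅x, z⁆⁆ := by
  induction x using G2.ind with
  | h0 => simp only [zero_br, br_zero, add_zero]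
  | ha x x' h h' => simp only [add_br, br_add, h, h']; abel
  | hs r i =>
    induction y using G2.ind with
    | h0 => simp only [zero_br, br_zero, add_zero]
    | ha x x' h h' => simp only [add_br, br_add, h, h']; abel
    | hs s j =>
      induction z using G2.ind with
      | h0 => simp only [br_zero, add_zero]
      | ha x x' h h' => simp only [br_add, h, h']; abel
      | hs t k =>
        simp only [smul_br, br_smul, e_br, smul_smul]
        rw [br_neg (vec (br i j)) (e k : G2 R), e_br_vec, e_br_vec, e_br_vec]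
        have h := vec_isZ (R := R) (jac_br i j k)
        rw [vec_append, vec_append, vec_scl] at h
        have h1 : (vec (brL i (br j k)) : G2 R) =
            -vec (brL k (br i j)) + vec (brL j (br i k)) := by
          have h2 : (vec (brL i (br j k)) : G2 R) = (vec (brL i (br j k)) + vec (brL k (br i j)) +
            ((-1 : ℤ) : R) • vec (brL j (br i k))) - vec (brL k (br i j)) +
              vec (brL j (br i k)) := by
            push_cast
            rw [neg_smul, one_smul]
            abel
          rw [h2, h]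
          abel
        rw [h1, smul_add, smul_neg, smul_neg]
        congr 1
        · congr 2; ring
        · congr 1; ring

instance : LieRing (G2 R) where
  add_lie := add_br
  lie_add := br_add
  lie_self := br_self
  leibniz_lie := br_jac

instance : LieAlgebra R (G2 R) where
  lie_smul r x y := br_smul r x y

lemma kf_add_left (x x' y : G2 R) : kf (x + x') y = kf x y + kf x' y := by
  simp only [kf_def, add_app, add_mul, Finset.sum_add_distrib]

lemma kf_smul_left (r : R) (x y : G2 R) : kf (r • x) y = r * kf x y := by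
  simp only [kf_def, smul_app, Finset.mul_sum, mul_assoc]

lemma kf_comm (x y : G2 R) : kf x y = kf y x := by
  rw [kf_def, kf_def, Finset.sum_comm]
  apply Finset.sum_congr rfl
  intro i _
  apply Finset.sum_congr rfl
  intro j _
  rw [fm_symm j i, mul_comm (x j)]

lemma kf_add_right (x y y' : G2 R) : kf x (y + y') = kf x y + kf x y' := by
  rw [kf_comm, kf_add_left, kf_comm y, kf_comm y']

lemma kf_smul_right (r : R) (x y : G2 R) : kf x (r • y) = r * kf x y := by
  rw [kf_comm, kf_smul_left, kf_comm y]

lemma kf_zero_left (y : G2 R) : kf 0 y = 0 := by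
  have := kf_smul_left 0 (0 : G2 R) y
  simpa using this

lemma kf_zero_right (y : G2 R) : kf y 0 = 0 := by rw [kf_comm, kf_zero_left]

lemma kf_neg_left (x y : G2 R) : kf (-x) y = -kf x y := by
  have := kf_smul_left (-1) x y
  simpa using this

lemma kf_e (i j : Fin 14) : kf (e i : G2 R) (e j : G2 R) = (fm i j : R) := by
  rw [kf_def, Finset.sum_eq_single i, Finset.sum_eq_single j]
  · simp [e_app]
  · intro b _ hb; simp [e_app, hb]
  · intro h; exact absurd (Finset.mem_univ _) h
  · intro b _ hb; simp [e_app, hb]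
  · intro h; exact absurd (Finset.mem_univ _) h

lemma kf_e_vec (i : Fin 14) (l : List (ℤ × Fin 14)) :
    kf (e i : G2 R) (vec l) = (fmL i l : R) := by
  induction l with
  | nil => rw [vec_nil, kf_zero_right]; simp [fmL]
  | cons t l ih =>
    have h : fmL i (t :: l) = t.1 * fm i t.2 + fmL i l := by simp [fmL]
    rw [h, vec_cons, kf_add_right, ih, kf_smul_right, kf_e]
    push_cast
    rfl

lemma kf_inv (x y z : G2 R) : kf ⁅x, y⁆ z = kf x ⁅y, z⁆ := by
  induction x using G2.ind with
  | h0 => rw [zero_lie, kf_zero_left, kf_zero_left]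
  | ha x x' h h' => rw [add_lie, kf_add_left, h, h', kf_add_left]
  | hs r i =>
    rw [smul_lie, kf_smul_left, kf_smul_left]
    congr 1
    induction y using G2.ind with
    | h0 => rw [lie_zero, zero_lie, kf_zero_left, kf_zero_right]
    | ha x x' h h' => rw [lie_add, add_lie, kf_add_left, h, h', kf_add_right]
    | hs s j =>
      rw [smul_lie, lie_smul, kf_smul_left, kf_smul_right]
      congr 1
      induction z using G2.ind with
      | h0 => rw [lie_zero, kf_zero_right, kf_zero_right]
      | ha x x' h h' => rw [lie_add, kf_add_right, h, h', kf_add_right]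
      | hs t k =>
        rw [lie_smul, kf_smul_right, kf_smul_right]
        congr 1
        rw [kf_comm]
        rw [show (⁅(e i : G2 R), e j⁆ : G2 R) = vec (br i j) from e_br i j,
          show (⁅(e j : G2 R), e k⁆ : G2 R) = vec (br j k) from e_br j k, kf_e_vec, kf_e_vec,
          fm_inv]

end

end Pool.Agent.H391.CV
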