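import Pool.Agent.H391.CV.V

set_option autoImplicit false
set_option linter.unusedVariables false

/-! Computations in the vacuum module in characteristic two at level zero. -/

attribute [local instance 100] LieRing.ofAssociativeRing

namespace Pool.Agent.H391.CV

universe u

/-- words in the modes of basis elements, applied to the vacuum -/
abbrev Wd : Type := List (ℤ × Fin 14)

/-- the brackets modulo two -/
def br2 (a b : Fin 14) : List (Fin 14) := ((br a b).filter fun t => t.1 % 2 == 1).map Prod.snd

/-- the order used for the normal form -/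
def leT (s t : ℤ × Fin 14) : Bool := s.1 < t.1 || (s.1 == t.1 && s.2 ≤ t.2)

/-- the action of a mode on a word, in normal form -/
def nact : ℕ → ℤ × Fin 14 → Wd → List Wd
  | 0, t, w => [t :: w]
  | _ + 1, t, [] => if t.1 < 0 then [[t]] else []
  | f + 1, t, s :: w =>
    if t.1 < 0 && leT t s then [t :: s :: w] else
      (nact f t w).flatMap (fun u => nact f s u) ++
        (br2 t.2 s.2).flatMap (fun k => nact f (t.1 + s.1, k) w)

/-- remove or add a word -/
def tog (w : Wd) (L : List Wd) : List Wd := if w ∈ L then L.erase w else w :: L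

/-- cancellation modulo two -/
def red (L : List Wd) : List Wd := L.foldr tog []

/-- the vector of weight three with a cubic part -/
def w3 : List Wd := [
  [(-3, 0)],
  [(-2, 0), (-1, 1)],
  [(-2, 2), (-1, 8)],
  [(-2, 4), (-1, 10)],
  [(-2, 6), (-1, 12)],
  [(-2, 8), (-1, 2)],
  [(-1, 0), (-1, 0), (-1, 1)],
  [(-1, 0), (-1, 1), (-1, 1)],
  [(-1, 0), (-1, 2), (-1, 8)],
  [(-1, 0), (-1, 4), (-1, 10)],
  [(-1, 0), (-1, 6), (-1, 12)],
  [(-1, 0), (-1, 7), (-1, 13)],
  [(-1, 1), (-1, 3), (-1, 9)],
  [(-1, 1), (-1, 4), (-1, 10)],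
  [(-1, 1), (-1, 5), (-1, 11)],
  [(-1, 1), (-1, 6), (-1, 12)],
  [(-1, 2), (-1, 3), (-1, 10)],
  [(-1, 2), (-1, 5), (-1, 12)],
  [(-1, 3), (-1, 6), (-1, 13)],
  [(-1, 4), (-1, 5), (-1, 13)],
  [(-1, 4), (-1, 8), (-1, 9)],
  [(-1, 6), (-1, 8), (-1, 11)],
  [(-1, 7), (-1, 9), (-1, 12)],
  [(-1, 7), (-1, 10), (-1, 11)]]

set_option maxRecDepth 100000 in
lemma w3_zero : ∀ x : Fin 14, (red (w3.flatMap (nact 8 (0, x)))).isEmpty = true := by
  decide +kernel

set_option maxRecDepth 100000 in
lemma w3_one : ∀ x : Fin 14, (red (w3.flatMap (nact 8 (1, x)))).isEmpty = true := by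
  decide +kernel

lemma perf : ∀ a : Fin 14, ∃ i j : Fin 14, br2 i j = [a] := by decide +kernel

section

variable {K : Type u} [Field K] (κ : K)

/-- the value of a word -/
noncomputable def wv : Wd → Vk K κ
  | [] => vac κ
  | t :: w => act κ (e t.2) t.1 (wv w)

/-- the value of a sum of words -/
noncomputable def lv (L : List Wd) : Vk K κ := (L.map (wv κ)).sum

lemma lv_nil : lv κ ([] : List Wd) = 0 := rfl

lemma lv_cons (w : Wd) (L : List Wd) : lv κ (w :: L) = wv κ w + lv κ L := by
  unfold lv; rw [List.map_cons, List.sum_cons]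

lemma lv_append (L L' : List Wd) : lv κ (L ++ L') = lv κ L + lv κ L' := by
  unfold lv; rw [List.map_append, List.sum_append]

variable [CharP K 2]

lemma two_smul_zero (v : Vk K κ) : v + v = 0 := by
  rw [← two_smul K v, CharTwo.two_eq_zero, zero_smul]

lemma odd_act (l : List (ℤ × Fin 14)) (n : ℤ) (v : Vk K κ) : act κ (vec l) n v =
    (((l.filter fun t => t.1 % 2 == 1).map Prod.snd).map (fun k => act κ (e k) n v)).sum := by
  induction l with
  | nil => rw [vec_nil, act_zero]; rfl
  | cons t l ih =>
    rw [vec_cons, act_add, act_smul, ih]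
    rcases Int.emod_two_eq_zero_or_one t.1 with h | h
    · have h1 : ((t.1 : ℤ) : K) = 0 := by
        obtain ⟨m, hm⟩ := Int.dvd_of_emod_eq_zero h
        rw [hm]
        push_cast
        rw [CharTwo.two_eq_zero, zero_mul]
      rw [h1, zero_smul, zero_add, List.filter_cons_of_neg (by rw [h]; decide)]
    · have h1 : ((t.1 : ℤ) : K) = 1 := by
        have h2 : t.1 = 2 * (t.1 / 2) + 1 := by omega
        rw [h2]
        push_cast
        rw [CharTwo.two_eq_zero, zero_mul, zero_add]
      rw [h1, one_smul, List.filter_cons_of_pos (by rw [h]; decide), List.map_cons, List.map_cons,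
        List.sum_cons]

lemma nact_val (hκ : κ = 0) (f : ℕ) : ∀ (t : ℤ × Fin 14) (w : Wd),
    lv κ (nact f t w) = act κ (e t.2) t.1 (wv κ w) := by
  have hsum : ∀ (g : Wd → List Wd) (F : Module.End K (Vk K κ)) (L : List Wd),
      (∀ w, lv κ (g w) = F (wv κ w)) → lv κ (L.flatMap g) = F (lv κ L) := by
    intro g F L hg
    induction L with
    | nil => rw [lv_nil, map_zero]; rfl
    | cons w L ih => rw [List.flatMap_cons, lv_append, lv_cons, map_add, hg, ih]
  induction f with
  | zero =>
    intro t w
    rw [nact, lv_cons, lv_nil, add_zero, wv]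
  | succ f ih =>
    intro t w
    cases w with
    | nil =>
      rw [nact]
      split_ifs with h
      · rw [lv_cons, lv_nil, add_zero]; rfl
      · rw [lv_nil, wv, act_vac (by omega)]
    | cons s w =>
      rw [nact]
      split_ifs with h
      · rw [lv_cons, lv_nil, add_zero, wv]
      · rw [lv_append, hsum _ _ _ (ih s), ih, wv, act_comm (e t.2) (e s.2)]
        rw [show (⁅(e t.2 : G2 K), e s.2⁆ : G2 K) = vec (br t.2 s.2) from e_br t.2 s.2,
          odd_act, hκ, mul_zero, zero_smul, add_zero]
        congr 1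
        change lv _ ((br2 t.2 s.2).flatMap _) = ((br2 t.2 s.2).map _).sum
        generalize br2 t.2 s.2 = l
        subst hκ
        induction l with
        | nil => rfl
        | cons k l ihl =>
          rw [List.flatMap_cons, lv_append, ihl, ih, List.map_cons, List.sum_cons]

lemma red_val (L : List Wd) : lv κ (red L) = lv κ L := by
  induction L with
  | nil => rfl
  | cons w L ih =>
    change lv κ (tog w (red L)) = _
    rw [lv_cons, ← ih]
    unfold tog
    split_ifs with h
    · have h1 : lv κ (red L) = wv κ w + lv κ ((red L).erase w) := by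
        clear ih
        generalize red L = M at h
        induction M with
        | nil => simp at h
        | cons u M ihM =>
          rw [List.erase_cons]
          split_ifs with hu
          · rw [lv_cons, beq_iff_eq.1 hu]
          · have h2 : w ∈ M := by
              rcases List.mem_cons.1 h with h3 | h3
              · exact absurd (beq_iff_eq.2 h3.symm) hu
              · exact h3
            rw [lv_cons, lv_cons, ihM h2, add_left_comm]
      rw [h1, ← add_assoc, two_smul_zero, zero_add]
    · rw [lv_cons]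

lemma act_lv (hκ : κ = 0) (x : Fin 14) (n : ℤ) (L : List Wd)
    (h : (red (L.flatMap (nact 8 (n, x)))).isEmpty = true) : act κ (e x) n (lv κ L) = 0 := by
  have h1 : ∀ L : List Wd, act κ (e x) n (lv κ L) = lv κ (L.flatMap (nact 8 (n, x))) := by
    intro L
    induction L with
    | nil => rw [lv_nil, map_zero]; rfl
    | cons w L ih => rw [List.flatMap_cons, lv_append, lv_cons, map_add, ih, nact_val κ hκ]
  rw [h1, ← red_val, List.isEmpty_iff.1 h, lv_nil]

/-- the vector of weight three is central -/
theorem w3_central (hκ : κ = 0) (x : G2 K) (n : ℤ) (hn : 0 ≤ n) : act κ x n (lv κ w3) = 0 := by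
  have key : ∀ m : ℕ, ∀ a : Fin 14, act κ (e a) (m : ℤ) (lv κ w3) = 0 := by
    intro m
    induction m with
    | zero => intro a; exact act_lv κ hκ a _ _ (w3_zero a)
    | succ m ih =>
      have h1 : ∀ a : Fin 14, act κ (e a) 1 (lv κ w3) = 0 :=
        fun a => act_lv κ hκ a _ _ (w3_one a)
      intro a
      rcases Nat.eq_zero_or_pos m with rfl | hm
      · exact h1 a
      · obtain ⟨i, j, hij⟩ := perf a
        have h2 := act_comm (κ := κ) (e i) (e j) 1 m (lv κ w3)
        rw [ih, h1, map_zero, map_zero, if_neg (by omega), zero_mul, zero_smul, add_zero,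
          zero_add, show (⁅(e i : G2 K), e j⁆ : G2 K) = vec (br i j) from e_br i j,
          odd_act] at h2
        change 0 = ((br2 i j).map _).sum at h2
        rw [hij] at h2
        simp only [List.map_cons, List.map_nil, List.sum_cons, List.sum_nil, add_zero] at h2
        rw [h2]
        push_cast
        rw [add_comm]
  induction x using G2.ind with
  | h0 => exact act_zero _ _ _
  | ha x y hx hy => rw [act_add, hx, hy, add_zero]
  | hs r a =>
    obtain ⟨m, rfl⟩ := Int.eq_ofNat_of_zero_le hn
    rw [act_smul, key, smul_zero]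

open Polynomial in
/-- the symbol of the vector of weight three -/
theorem w3_symb (ω : K) (ψ : Vk K κ →ₗ[K] K[X]) (p1 : ψ (vac κ) = 1)
    (p2 : ∀ (x : G2 K) (v : Vk K κ), ψ (act κ x (-1) v) = sT K ω x * ψ v)
    (p3 : ∀ (x : G2 K) (n : ℤ) (v : Vk K κ), n < -1 → ψ (act κ x n v) = 0) :
    ψ (lv κ w3) = C (ω + ω ^ 2) * X ^ 3 := by
  have hX : thW K ω X = ω := eval₂_X _ _
  have s0 : sT K ω (e 0) = X := by
    rw [sT_e]; unfold xW; rw [if_pos rfl, Polynomial.map_X]
  have s1 : sT K ω (e 1) = C ω * X := by
    rw [sT_e]; unfold xW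
    rw [if_neg (by decide), if_pos rfl, Polynomial.map_mul, Polynomial.map_X, Polynomial.map_C, hX]
  have s2 : ∀ a : Fin 14, a ≠ 0 → a ≠ 1 → sT K ω (e a) = 0 := by
    intro a h0 h1
    rw [sT_e]; unfold xW; rw [if_neg h0, if_neg h1, Polynomial.map_zero]
  unfold lv w3
  simp only [List.map_cons, List.map_nil, List.sum_cons, List.sum_nil, map_add, wv, map_zero,
    p2, p1]
  rw [p3 _ (-3) _ (by norm_num)]
  simp only [p3 _ (-2) _ (by norm_num : (-2 : ℤ) < -1)]
  rw [s0, s1, s2 2 (by decide) (by decide), s2 3 (by decide) (by decide),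
    s2 4 (by decide) (by decide), s2 5 (by decide) (by decide), s2 6 (by decide) (by decide),
    s2 7 (by decide) (by decide), s2 8 (by decide) (by decide), s2 9 (by decide) (by decide),
    s2 10 (by decide) (by decide), s2 11 (by decide) (by decide), s2 12 (by decide) (by decide),
    s2 13 (by decide) (by decide)]
  rw [C_pow]
  ring

end

end Pool.Agent.H391.CV
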