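import Pool.Agent.H391.CV.Y

set_option autoImplicit false
set_option linter.unusedVariables false

/-! The `2`-centre: its elements are central and have no linear and no cubic part. -/

attribute [local instance 100] LieRing.ofAssociativeRing

namespace Pool.Agent.H391.CV

universe u

open Polynomial

/-- the polynomials without a linear and a cubic part -/
noncomputable def Gd (K : Type u) [Field K] : Subalgebra K K[X] where
  carrier := {f | f.coeff 1 = 0 ∧ f.coeff 3 = 0}
  mul_mem' := by
    rintro f g ⟨hf1, hf3⟩ ⟨hg1, hg3⟩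
    constructor
    · rw [coeff_mul, show Finset.HasAntidiagonal.antidiagonal 1 = {(0, 1), (1, 0)} from rfl,
        Finset.sum_pair (by decide)]
      rw [hf1, hg1]; ring
    · rw [coeff_mul, show Finset.HasAntidiagonal.antidiagonal 3 =
        {(0, 3), (1, 2), (2, 1), (3, 0)} from rfl,
        Finset.sum_insert (by decide), Finset.sum_insert (by decide), Finset.sum_pair (by decide)]
      rw [hf1, hg1, hf3, hg3]; ring
  add_mem' := by
    rintro f g ⟨hf1, hf3⟩ ⟨hg1, hg3⟩
    exact ⟨by rw [coeff_add, hf1, hg1, add_zero], by rw [coeff_add, hf3, hg3, add_zero]⟩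
  algebraMap_mem' := by
    intro r
    rw [algebraMap_eq]
    exact ⟨by rw [coeff_C, if_neg (by decide)], by rw [coeff_C, if_neg (by decide)]⟩

section

variable {K : Type u} [Field K] {κ : K}

/-- the generators of `Z₀'` are central in the enveloping algebra -/
lemma gen_comm [CharP K 2] {x y : G2 K} (h : IsPow x y) (n : ℤ) (w : Aff K) :
    (iA (el x n) ^ 2 - iA (el y (2 * n))) * iA w = iA w * (iA (el x n) ^ 2 - iA (el y (2 * n))) := by
  have h20 : (2 : UAff K) = 0 := by
    have h1 : (2 : K) = 0 := CharTwo.two_eq_zero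
    have h2 := congrArg (algebraMap K (UAff K)) h1
    rwa [map_ofNat, map_zero] at h2
  have key3 : ⁅el x n, ⁅el x n, w⁆⁆ = ⁅el y (2 * n), w⁆ := by
    induction w using Aff.ind with
    | h0 => rw [lie_zero, lie_zero, lie_zero]
    | ha u v hu hv => rw [lie_add, lie_add, lie_add, hu, hv]
    | he u m =>
      rw [br_el, lie_add, lie_smul, br_cel', smul_zero, add_zero, br_el, br_el, ← h u]
      have e1 : kf x ⁅x, u⁆ = 0 := by rw [← kf_inv, lie_self, kf_zero_left]
      have e2 : ((2 * n : ℤ) : K) = 0 := by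
        push_cast
        rw [CharTwo.two_eq_zero, zero_mul]
      rw [e1, e2]
      simp only [mul_zero, zero_mul, ite_self, zero_smul, add_zero]
      congr 1
      ring
    | hc r => rw [lie_smul, br_cel', smul_zero, lie_zero, lie_smul, br_cel', smul_zero]
  have key : iA (el x n) ^ 2 * iA w - iA w * iA (el x n) ^ 2 =
      iA ⁅el x n, ⁅el x n, w⁆⁆ := by
    have e1 : ∀ w : Aff K, iA ⁅el x n, w⁆ = iA (el x n) * iA w - iA w * iA (el x n) := by
      intro w
      rw [← LieRing.of_associative_ring_bracket, ← LieHom.map_lie]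
    rw [e1, e1]
    have e2 : iA (el x n) ^ 2 * iA w - iA w * iA (el x n) ^ 2 =
        iA (el x n) * (iA (el x n) * iA w - iA w * iA (el x n)) -
          (iA (el x n) * iA w - iA w * iA (el x n)) * iA (el x n) +
        2 * ((iA (el x n) * iA w - iA w * iA (el x n)) * iA (el x n)) := by
      noncomm_ring
    rw [e2, h20, zero_mul, add_zero]
  have key2 : iA (el y (2 * n)) * iA w - iA w * iA (el y (2 * n)) = iA ⁅el y (2 * n), w⁆ := by
    rw [← LieRing.of_associative_ring_bracket, ← LieHom.map_lie]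
  rw [sub_mul, mul_sub, sub_eq_sub_iff_sub_eq_sub, key, key2, key3]

/-- the elements of `Z₀'` are central in the enveloping algebra -/
lemma Z0_comm [CharP K 2] {z : UAff K} (hz : z ∈ Z0 K) (w : Aff K) : z * iA w = iA w * z := by
  unfold Z0 at hz
  induction hz using Algebra.adjoin_induction with
  | mem z hz =>
    obtain ⟨x, y, n, h, rfl⟩ := hz
    exact gen_comm h n w
  | algebraMap r => exact Algebra.commutes r _
  | add a b _ _ ha hb => rw [add_mul, mul_add, ha, hb]
  | mul a b _ _ ha hb => rw [mul_assoc, hb, ← mul_assoc, ha, mul_assoc]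

/-- the vectors of the `2`-centre are killed by the nonnegative modes -/
lemma Z0_central [CharP K 2] {z : UAff K} (hz : z ∈ Z0 K) (x : G2 K) (n : ℤ) (hn : 0 ≤ n) :
    act κ x n (z • vac κ) = 0 := by
  rw [act_apply, ← mul_smul, ← Z0_comm hz, mul_smul]
  have : (iA (el x n) : UAff K) • vac κ = 0 := gen_smul_vac hn
  rw [this, smul_zero]

/-- the generators with nonnegative modes act by zero -/
lemma gen_zero [CharP K 2] {x y : G2 K} (h : IsPow x y) {n : ℤ} (hn : 0 ≤ n) (v : Vk K κ) :
    (iA (el x n) ^ 2 - iA (el y (2 * n)) : UAff K) • v = 0 := by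
  induction v using Vk.ind with
  | h1 =>
    rw [sub_smul, pow_two, mul_smul]
    have e1 : (iA (el x n) : UAff K) • vac κ = 0 := gen_smul_vac hn
    have e2 : (iA (el y (2 * n)) : UAff K) • vac κ = 0 := gen_smul_vac (by omega)
    rw [e1, e2, smul_zero, sub_zero]
  | ha u v hu hv => rw [smul_add, hu, hv, add_zero]
  | hs r u hu => rw [smul_comm, hu, smul_zero]
  | hz w u hu => rw [← mul_smul, gen_comm h, mul_smul, hu, smul_zero]

/-- the symbols of the vectors of the `2`-centre -/
theorem Z0_symb [CharP K 2] (ω : K) (ψ : Vk K κ →ₗ[K] K[X]) (h1 : ψ (vac κ) = 1)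
    (h2 : ∀ (x : G2 K) (v : Vk K κ), ψ (act κ x (-1) v) = sT K ω x * ψ v)
    (h3 : ∀ (x : G2 K) (n : ℤ) (v : Vk K κ), n < -1 → ψ (act κ x n v) = 0) {z : UAff K}
    (hz : z ∈ Z0 K) : ψ (z • vac κ) ∈ Gd K := by
  have hS : ∃ s ∈ Gd K, ∀ u : Vk K κ, ψ (z • u) = s * ψ u := by
    unfold Z0 at hz
    induction hz using Algebra.adjoin_induction with
    | mem z hz =>
      obtain ⟨x, y, n, h, rfl⟩ := hz
      have hsub : ∀ u : Vk K κ, ((iA (el x n) ^ 2 - iA (el y (2 * n)) : UAff K)) • u =
          act κ x n (act κ x n u) - act κ y (2 * n) u := by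
        intro u
        rw [sub_smul, pow_two, mul_smul]
        rfl
      rcases lt_trichotomy n (-1) with hn | rfl | hn
      · refine ⟨0, (Gd K).zero_mem, fun u => ?_⟩
        rw [hsub, map_sub, h3 _ _ _ hn, h3 _ _ _ (by omega), sub_zero, zero_mul]
      · refine ⟨sT K ω x * sT K ω x, ?_, fun u => ?_⟩
        · have e1 : sT K ω x * sT K ω x = C ((x 0 + ω * x 1) * (x 0 + ω * x 1)) * X ^ 2 := by
            change (C (x 0 + ω * x 1) * X) * (C (x 0 + ω * x 1) * X) = _
            rw [C_mul]; ring
          rw [e1]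
          constructor
          · rw [coeff_C_mul_X_pow, if_neg (by decide)]
          · rw [coeff_C_mul_X_pow, if_neg (by decide)]
        · rw [hsub, map_sub, h2, h2, h3 _ _ _ (by omega), sub_zero, mul_assoc]
      · refine ⟨0, (Gd K).zero_mem, fun u => ?_⟩
        rw [gen_zero h (by omega), map_zero, zero_mul]
    | algebraMap r =>
      refine ⟨algebraMap K _ r, (Gd K).algebraMap_mem r, fun u => ?_⟩
      rw [algebraMap_smul, map_smul, Algebra.smul_def]
    | add a b _ _ ha hb =>
      obtain ⟨s, hs, hs'⟩ := ha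
      obtain ⟨t, ht, ht'⟩ := hb
      refine ⟨s + t, (Gd K).add_mem hs ht, fun u => ?_⟩
      rw [add_smul, map_add, hs', ht', add_mul]
    | mul a b _ _ ha hb =>
      obtain ⟨s, hs, hs'⟩ := ha
      obtain ⟨t, ht, ht'⟩ := hb
      refine ⟨s * t, (Gd K).mul_mem hs ht, fun u => ?_⟩
      rw [mul_smul, hs', ht', mul_assoc]
  obtain ⟨s, hs, hs'⟩ := hS
  rw [hs', h1, mul_one]
  exact hs

end

end Pool.Agent.H391.CV
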