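import Pool.Agent.H391.CV.X

set_option autoImplicit false
set_option linter.unusedVariables false

/-! The symbol of an integral word, and the invariance of the symbols of central vectors. -/

attribute [local instance 100] LieRing.ofAssociativeRing

namespace Pool.Agent.H391.CV

universe u

open MvPolynomial

/-- the symbol of an integral word -/
noncomputable def qP : FW →ₐ[ℤ] MvPolynomial (Fin 14) ℤ :=
  FreeAlgebra.lift ℤ (fun t => if t.1 = 0 then X t.2 else 0)

lemma qP_gw_zero (a : Fin 14) (P : FW) : qP (gw 0 a * P) = X a * qP P := by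
  rw [map_mul]
  unfold qP
  rw [FreeAlgebra.lift_ι_apply, if_pos rfl]

lemma qP_gw_succ (n : ℕ) (hn : n ≠ 0) (a : Fin 14) (P : FW) : qP (gw n a * P) = 0 := by
  rw [map_mul]
  unfold qP
  rw [FreeAlgebra.lift_ι_apply, if_neg hn, zero_mul]

/-- the linear form given by a list -/
noncomputable def lf (l : List (ℤ × Fin 14)) : MvPolynomial (Fin 14) ℤ :=
  (l.map fun t => C t.1 * X t.2).sum

lemma lf_cons (t : ℤ × Fin 14) (l : List (ℤ × Fin 14)) : lf (t :: l) = C t.1 * X t.2 + lf l := by
  simp [lf]

/-- the derivation given by `ad (b a)` -/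
noncomputable def Dd (a : Fin 14) : Derivation ℤ (MvPolynomial (Fin 14) ℤ) (MvPolynomial (Fin 14) ℤ) :=
  mkDerivation ℤ (fun b => lf (br a b))

/-- the linear map `x ↦ ∑ x_a X_a` -/
noncomputable def sX (K : Type u) [Field K] : G2 K →ₗ[K] MvPolynomial (Fin 14) K where
  toFun x := ∑ a : Fin 14, C (x a) * X a
  map_add' x y := by
    rw [← Finset.sum_add_distrib]
    apply Finset.sum_congr rfl
    intro a _
    rw [add_app, C_add, add_mul]
  map_smul' r x := by
    rw [RingHom.id_apply, Finset.smul_sum]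
    apply Finset.sum_congr rfl
    intro a _
    rw [smul_app, C_mul, smul_eq_C_mul, mul_assoc]

lemma sX_e (K : Type u) [Field K] (a : Fin 14) : sX K (e a) = X a := by
  change ∑ b : Fin 14, C ((e a : G2 K) b) * X b = _
  rw [Finset.sum_eq_single a]
  · rw [e_app, if_pos rfl, C_1, one_mul]
  · intro b _ hb
    rw [e_app, if_neg hb, C_0, zero_mul]
  · intro h; exact absurd (Finset.mem_univ _) h

lemma sX_vec (K : Type u) [Field K] (l : List (ℤ × Fin 14)) :
    sX K (vec l) = map (Int.castRingHom K) (lf l) := by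
  induction l with
  | nil => rw [vec_nil, map_zero]; simp [lf]
  | cons t l ih =>
    rw [vec_cons, lf_cons, map_add, map_smul, ih, sX_e, map_add, map_mul, map_C, map_X,
      smul_eq_C_mul]
    rfl

/-- the derivation computes the action of the zero modes on symbols -/
theorem symb_zero (K : Type u) [Field K] (κ : K) (ψ : Vk K κ →ₗ[K] MvPolynomial (Fin 14) K)
    (h1 : ψ (vac κ) = 1) (h2 : ∀ (x : G2 K) (v : Vk K κ), ψ (act κ x (-1) v) = sX K x * ψ v)
    (h3 : ∀ (x : G2 K) (n : ℤ) (v : Vk K κ), n < -1 → ψ (act κ x n v) = 0) (P : FW) :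
    ψ (lat κ P) = map (Int.castRingHom K) (qP P) ∧
      ∀ a : Fin 14, ψ (act κ (e a) 0 (lat κ P)) = map (Int.castRingHom K) (Dd a (qP P)) := by
  induction P using FW.ind with
  | h1 =>
    refine ⟨by rw [lat_one, h1, map_one, map_one], fun a => ?_⟩
    rw [lat_one, act_vac le_rfl, map_zero, map_one, Derivation.map_one_eq_zero, map_zero]
  | ha u v hu hv =>
    refine ⟨by rw [lat_add, map_add, hu.1, hv.1, map_add, map_add], fun a => ?_⟩
    rw [lat_add, map_add, map_add, hu.2, hv.2, map_add, map_add, map_add]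
  | hs r u hu =>
    have e1 : ∀ q : MvPolynomial (Fin 14) ℤ,
        map (Int.castRingHom K) (r • q) = (r : K) • map (Int.castRingHom K) q := by
      intro q
      rw [smul_eq_C_mul, map_mul, map_C, smul_eq_C_mul]
      rfl
    refine ⟨by rw [lat_smul, map_smul, hu.1, map_smul, e1], fun a => ?_⟩
    have e2 : qP (r • u) = r • qP u := map_smul _ _ _
    rw [lat_smul, map_smul, map_smul, hu.2, e2, Derivation.map_smul, e1]
  | hz n b u hu =>
    rcases Nat.eq_zero_or_pos n with rfl | hn
    · have e0 : (-((0 : ℕ) : ℤ) - 1) = -1 := by norm_num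
      refine ⟨by rw [lat_gw, e0, h2, sX_e, hu.1, qP_gw_zero, map_mul, map_X], fun a => ?_⟩
      rw [lat_gw, e0, act_comm, map_add, map_add, h2, hu.2, if_neg (by omega), zero_mul,
        zero_smul, map_zero, add_zero, zero_add, h2, hu.1, qP_gw_zero, sX_e,
        show (⁅(e a : G2 K), e b⁆ : G2 K) = vec (br a b) from e_br a b, sX_vec,
        Derivation.leibniz, smul_eq_mul, smul_eq_mul, map_add, map_mul, map_mul, map_X]
      have e2 : Dd a (X b) = lf (br a b) := mkDerivation_X _ _ _
      rw [e2, mul_comm (map (Int.castRingHom K) (qP u))]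
    · have hn' : n ≠ 0 := by omega
      refine ⟨by rw [lat_gw, h3 _ _ _ (by omega), qP_gw_succ _ hn', map_zero], fun a => ?_⟩
      rw [lat_gw, act_comm, map_add, map_add, h3 _ _ _ (by omega), h3 _ _ _ (by omega),
        if_neg (by omega), zero_mul, zero_smul, map_zero, qP_gw_succ _ hn', map_zero, map_zero,
        add_zero, add_zero]

/-- the symbol of a word that gives a central vector is invariant -/
theorem inv_of_central (κ : ℂ) (P : FW) (h : ∀ (x : G2 ℂ) (n : ℤ), 0 ≤ n → act κ x n (lat κ P) = 0)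
    (a : Fin 14) : Dd a (qP P) = 0 := by
  obtain ⟨ψ, h1, h2, h3⟩ := exists_psi κ (sX ℂ)
  have h4 := (symb_zero ℂ κ ψ h1 h2 h3 P).2 a
  rw [h _ _ le_rfl, map_zero] at h4
  have h5 : Function.Injective (map (Int.castRingHom ℂ) : MvPolynomial (Fin 14) ℤ →+* _) :=
    map_injective _ Int.cast_injective
  apply h5
  rw [← h4, map_zero]

end Pool.Agent.H391.CV
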