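import Pool.Agent.H391.CV.Q

set_option autoImplicit false
set_option linter.unusedVariables false

/-! Invariant polynomials have no linear and no cubic part on the Cartan subalgebra. -/

namespace Pool.Agent.H391.CV

universe u

open MvPolynomial

/-- the linear coefficients -/
noncomputable def c1 (q : MvPolynomial (Fin 14) ℤ) (i : Fin 14) : ℤ := constantCoeff (pderiv i q)

/-- the third derivatives at the origin -/
noncomputable def c3 (q : MvPolynomial (Fin 14) ℤ) (i j k : Fin 14) : ℤ :=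
  constantCoeff (pderiv i (pderiv j (pderiv k q)))

lemma pderiv_comm (i j : Fin 14) (q : MvPolynomial (Fin 14) ℤ) :
    pderiv i (pderiv j q) = pderiv j (pderiv i q) := by
  induction q using MvPolynomial.induction_on with
  | C a => simp
  | add p q hp hq => rw [map_add, map_add, hp, hq, map_add, map_add]
  | mul_X p n hp =>
    have h : ∀ a b : Fin 14, pderiv a (pderiv b (X n : MvPolynomial (Fin 14) ℤ)) = 0 := by
      intro a b
      rw [pderiv_X]
      rcases eq_or_ne n b with rfl | hb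
      · rw [Pi.single_eq_same, Derivation.map_one_eq_zero]
      · rw [Pi.single_eq_of_ne hb, map_zero]
    simp only [pderiv_mul, map_add, hp, h]
    ring

lemma c3_comm12 (q : MvPolynomial (Fin 14) ℤ) (i j k : Fin 14) : c3 q i j k = c3 q j i k := by
  unfold c3; rw [pderiv_comm i j]

lemma c3_comm23 (q : MvPolynomial (Fin 14) ℤ) (i j k : Fin 14) : c3 q i j k = c3 q i k j := by
  unfold c3; rw [pderiv_comm j k]

lemma lf_const (l : List (ℤ × Fin 14)) : constantCoeff (lf l) = 0 := by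
  induction l with
  | nil => simp [lf]
  | cons t l ih => rw [lf_cons, map_add, ih, map_mul, constantCoeff_X, mul_zero, add_zero]

lemma lf_pderiv (l : List (ℤ × Fin 14)) (i : Fin 14) : pderiv i (lf l) = C (co l i) := by
  induction l with
  | nil => simp [lf, co]
  | cons t l ih =>
    have h : co (t :: l) i = (if t.2 = i then t.1 else 0) + co l i := by simp [co]
    rw [lf_cons, map_add, ih, h, map_add, pderiv_mul, pderiv_C, zero_mul, zero_add, pderiv_X]
    congr 1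
    rcases eq_or_ne t.2 i with hb | hb
    · rw [if_pos hb, hb, Pi.single_eq_same, mul_one]
    · rw [if_neg hb, Pi.single_eq_of_ne hb, mul_zero, map_zero]

lemma Dd_eq (a : Fin 14) (q : MvPolynomial (Fin 14) ℤ) :
    Dd a q = ∑ b : Fin 14, pderiv b q * lf (br a b) := by
  have h : Dd a = ∑ b : Fin 14, lf (br a b) • pderiv b := by
    apply MvPolynomial.derivation_ext
    intro i
    have e2 : Dd a (X i) = lf (br a i) := mkDerivation_X _ _ _
    rw [e2]
    have e3 : (∑ b : Fin 14, lf (br a b) • pderiv b : Derivation ℤ _ _) (X i) =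
        ∑ b : Fin 14, (lf (br a b) • pderiv b : Derivation ℤ (MvPolynomial (Fin 14) ℤ) _) (X i) := by
      rw [← Derivation.coeFnAddMonoidHom_apply, map_sum, Finset.sum_apply]
      rfl
    rw [e3, Finset.sum_eq_single i]
    · rw [Derivation.smul_apply, pderiv_X, Pi.single_eq_same, smul_eq_mul, mul_one]
    · intro b _ hb
      rw [Derivation.smul_apply, pderiv_X, Pi.single_eq_of_ne (Ne.symm hb), smul_zero]
    · intro h; exact absurd (Finset.mem_univ _) h
  rw [h]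
  rw [← Derivation.coeFnAddMonoidHom_apply, map_sum, Finset.sum_apply]
  apply Finset.sum_congr rfl
  intro b _
  change lf (br a b) • pderiv b q = _
  rw [smul_eq_mul, mul_comm]

lemma inv1 {q : MvPolynomial (Fin 14) ℤ} {a : Fin 14} (h : Dd a q = 0) (i : Fin 14) :
    ∑ b : Fin 14, co (br a b) i * c1 q b = 0 := by
  rw [Dd_eq] at h
  have h2 := congrArg (fun q => constantCoeff (pderiv i q)) h
  simp only [map_sum, map_zero] at h2
  rw [← h2]
  apply Finset.sum_congr rfl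
  intro b _
  rw [pderiv_mul, lf_pderiv, map_add, map_mul, map_mul, lf_const, mul_zero, zero_add,
    constantCoeff_C, mul_comm]
  rfl

lemma inv3 {q : MvPolynomial (Fin 14) ℤ} {a : Fin 14} (h : Dd a q = 0) (i j k : Fin 14) :
    ∑ b : Fin 14, (co (br a b) i * c3 q b j k + co (br a b) j * c3 q i b k +
      co (br a b) k * c3 q i j b) = 0 := by
  rw [Dd_eq] at h
  have h2 := congrArg (fun q => constantCoeff (pderiv i (pderiv j (pderiv k q)))) h
  simp only [map_sum, map_zero] at h2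
  rw [← h2]
  apply Finset.sum_congr rfl
  intro b _
  simp only [pderiv_mul, lf_pderiv, map_add, pderiv_C, mul_zero, add_zero, map_mul, lf_const,
    constantCoeff_C, zero_add]
  unfold c3
  rw [pderiv_comm b j, pderiv_comm b k]
  ring

/-- the equations given by a root `γ` -/
lemma eqG {q : MvPolynomial (Fin 14) ℤ} {g g' : Fin 14} (h : Dd g q = 0)
    (hA : ∀ b i : Fin 14, i = 0 ∨ i = 1 → b ≠ g' → co (br g b) i = 0)
    (hB : ∀ b : Fin 14, b ≠ 0 → b ≠ 1 → co (br g b) g = 0) (i j : Fin 14)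
    (hi : i = 0 ∨ i = 1) (hj : j = 0 ∨ j = 1) :
    co (br g g') i * c3 q g' j g + co (br g g') j * c3 q g' i g +
      (co (br g 0) g * c3 q i j 0 + co (br g 1) g * c3 q i j 1) = 0 := by
  have h1 := inv3 h i j g
  rw [Finset.sum_add_distrib, Finset.sum_add_distrib] at h1
  have e1 : ∑ b : Fin 14, co (br g b) i * c3 q b j g = co (br g g') i * c3 q g' j g := by
    apply Finset.sum_eq_single g'
    · intro b _ hb
      rw [hA b i hi hb, zero_mul]
    · intro h; exact absurd (Finset.mem_univ _) h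
  have e2 : ∑ b : Fin 14, co (br g b) j * c3 q i b g = co (br g g') j * c3 q g' i g := by
    rw [c3_comm12 q g' i g]
    apply Finset.sum_eq_single g'
    · intro b _ hb
      rw [hA b j hj hb, zero_mul]
    · intro h; exact absurd (Finset.mem_univ _) h
  have e3 : ∑ b : Fin 14, co (br g b) g * c3 q i j b =
      co (br g 0) g * c3 q i j 0 + co (br g 1) g * c3 q i j 1 := by
    rw [← Finset.sum_subset (Finset.subset_univ ({0, 1} : Finset (Fin 14)))]
    · rw [Finset.sum_pair (by decide)]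
    · intro b _ hb
      rw [Finset.mem_insert, Finset.mem_singleton, not_or] at hb
      rw [hB b hb.1 hb.2, zero_mul]
  rw [e1, e2, e3] at h1
  exact h1

lemma hA2 : ∀ b i : Fin 14, i = 0 ∨ i = 1 → b ≠ 8 → co (br 2 b) i = 0 := by decide +kernel
lemma hA3 : ∀ b i : Fin 14, i = 0 ∨ i = 1 → b ≠ 9 → co (br 3 b) i = 0 := by decide +kernel
lemma hA4 : ∀ b i : Fin 14, i = 0 ∨ i = 1 → b ≠ 10 → co (br 4 b) i = 0 := by decide +kernel
lemma hA5 : ∀ b i : Fin 14, i = 0 ∨ i = 1 → b ≠ 11 → co (br 5 b) i = 0 := by decide +kernel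
lemma hB2 : ∀ b : Fin 14, b ≠ 0 → b ≠ 1 → co (br 2 b) 2 = 0 := by decide +kernel
lemma hB3 : ∀ b : Fin 14, b ≠ 0 → b ≠ 1 → co (br 3 b) 3 = 0 := by decide +kernel
lemma hB4 : ∀ b : Fin 14, b ≠ 0 → b ≠ 1 → co (br 4 b) 4 = 0 := by decide +kernel
lemma hB5 : ∀ b : Fin 14, b ≠ 0 → b ≠ 1 → co (br 5 b) 5 = 0 := by decide +kernel

lemma lin {C0 C1 C2 C3 p2 r2 p4 r4 p5 r5 : ℤ}
    (a1 : 1 * p2 + 1 * p2 + (-2 * C0 + 1 * C1) = 0)
    (a3 : 0 * r2 + 0 * r2 + (-2 * C2 + 1 * C3) = 0)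
    (b1 : 3 * C0 + -2 * C1 = 0)
    (d1 : 1 * p4 + 1 * p4 + (1 * C0 + -1 * C1) = 0)
    (d2 : 1 * r4 + 3 * p4 + (1 * C1 + -1 * C2) = 0)
    (d3 : 3 * r4 + 3 * r4 + (1 * C2 + -1 * C3) = 0)
    (e1 : 2 * p5 + 2 * p5 + (-1 * C0 + 0 * C1) = 0)
    (e2 : 2 * r5 + 3 * p5 + (-1 * C1 + 0 * C2) = 0)
    (e3 : 3 * r5 + 3 * r5 + (-1 * C2 + 0 * C3) = 0) : C0 = 0 ∧ C1 = 0 ∧ C2 = 0 ∧ C3 = 0 := by
  have h0 : C0 = 0 := by omega
  have h1 : C1 = 0 := by omega
  have h2 : C2 = 0 := by omega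
  exact ⟨h0, h1, h2, by omega⟩

lemma v1 : co (br 2 8) 0 = 1 ∧ co (br 2 8) 1 = 0 ∧ co (br 2 0) 2 = -2 ∧ co (br 2 1) 2 = 1 := by
  decide +kernel
lemma v2 : co (br 3 9) 0 = 0 ∧ co (br 3 0) 3 = 3 ∧ co (br 3 1) 3 = -2 := by decide +kernel
lemma v3 : co (br 4 10) 0 = 1 ∧ co (br 4 10) 1 = 3 ∧ co (br 4 0) 4 = 1 ∧ co (br 4 1) 4 = -1 := by
  decide +kernel
lemma v4 : co (br 5 11) 0 = 2 ∧ co (br 5 11) 1 = 3 ∧ co (br 5 0) 5 = -1 ∧ co (br 5 1) 5 = 0 := by
  decide +kernel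

/-- the third derivatives along the Cartan subalgebra vanish -/
theorem c3_zero {q : MvPolynomial (Fin 14) ℤ} (h : ∀ a, Dd a q = 0) (i j k : Fin 14)
    (hi : i = 0 ∨ i = 1) (hj : j = 0 ∨ j = 1) (hk : k = 0 ∨ k = 1) : c3 q i j k = 0 := by
  have s1 : c3 q 0 1 0 = c3 q 0 0 1 := c3_comm23 q 0 1 0
  have s2 : c3 q 1 0 0 = c3 q 0 0 1 := by rw [c3_comm12, c3_comm23]
  have s3 : c3 q 1 0 1 = c3 q 0 1 1 := c3_comm12 q 1 0 1
  have s4 : c3 q 1 1 0 = c3 q 0 1 1 := by rw [c3_comm23, c3_comm12]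
  have a1 := eqG (h 2) hA2 hB2 0 0 (Or.inl rfl) (Or.inl rfl)
  have a3 := eqG (h 2) hA2 hB2 1 1 (Or.inr rfl) (Or.inr rfl)
  have b1 := eqG (h 3) hA3 hB3 0 0 (Or.inl rfl) (Or.inl rfl)
  have d1 := eqG (h 4) hA4 hB4 0 0 (Or.inl rfl) (Or.inl rfl)
  have d2 := eqG (h 4) hA4 hB4 0 1 (Or.inl rfl) (Or.inr rfl)
  have d3 := eqG (h 4) hA4 hB4 1 1 (Or.inr rfl) (Or.inr rfl)
  have e1 := eqG (h 5) hA5 hB5 0 0 (Or.inl rfl) (Or.inl rfl)
  have e2 := eqG (h 5) hA5 hB5 0 1 (Or.inl rfl) (Or.inr rfl)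
  have e3 := eqG (h 5) hA5 hB5 1 1 (Or.inr rfl) (Or.inr rfl)
  rw [v1.1, v1.2.2.1, v1.2.2.2] at a1
  rw [v1.2.1, v1.2.2.1, v1.2.2.2, s4] at a3
  rw [v2.1, v2.2.1, v2.2.2, zero_mul, zero_add, zero_add] at b1
  rw [v3.1, v3.2.2.1, v3.2.2.2] at d1
  rw [v3.1, v3.2.1, v3.2.2.1, v3.2.2.2, s1] at d2
  rw [v3.2.1, v3.2.2.1, v3.2.2.2, s4] at d3
  rw [v4.1, v4.2.2.1, v4.2.2.2] at e1
  rw [v4.1, v4.2.1, v4.2.2.1, v4.2.2.2, s1] at e2
  rw [v4.2.1, v4.2.2.1, v4.2.2.2, s4] at e3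
  obtain ⟨z1, z2, z3, z4⟩ := lin a1 a3 b1 d1 d2 d3 e1 e2 e3
  rcases hi with rfl | rfl <;> rcases hj with rfl | rfl <;> rcases hk with rfl | rfl
  · exact z1
  · exact z2
  · exact s1.trans z2
  · exact z3
  · exact s2.trans z2
  · exact s3.trans z3
  · exact s4.trans z3
  · exact z4

/-- the linear coefficients along the Cartan subalgebra vanish -/
theorem c1_zero {q : MvPolynomial (Fin 14) ℤ} (h : ∀ a, Dd a q = 0) (i : Fin 14)
    (hi : i = 0 ∨ i = 1) : c1 q i = 0 := by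
  have key : ∀ g : Fin 14, (∀ b : Fin 14, b ≠ 0 → b ≠ 1 → co (br g b) g = 0) → Dd g q = 0 →
      co (br g 0) g * c1 q 0 + co (br g 1) g * c1 q 1 = 0 := by
    intro g hB hg
    have h1 := inv1 hg g
    rw [← Finset.sum_subset (Finset.subset_univ ({0, 1} : Finset (Fin 14)))] at h1
    · rwa [Finset.sum_pair (by decide)] at h1
    · intro b _ hb
      rw [Finset.mem_insert, Finset.mem_singleton, not_or] at hb
      rw [hB b hb.1 hb.2, zero_mul]
  have a1 := key 2 hB2 (h 2)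
  have b1 := key 3 hB3 (h 3)
  rw [v1.2.2.1, v1.2.2.2] at a1
  rw [v2.2.1, v2.2.2] at b1
  have e0 : c1 q 0 = 0 ∧ c1 q 1 = 0 := by
    generalize c1 q 0 = x at *
    generalize c1 q 1 = y at *
    omega
  rcases hi with rfl | rfl
  · exact e0.1
  · exact e0.2

end Pool.Agent.H391.CV
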