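import Mathlib

set_option autoImplicit false

/-! Sorting products modulo shorter ones, with integer coefficients. -/

namespace Pool.Agent.H391.CV

universe u v

section sort

variable {A : Type u} [Ring A] {B : Type v} [LinearOrder B]

/-- the span of the products of lists of length less than `k` -/
def SP (g : B → A) (k : ℕ) : Submodule ℤ A :=
  Submodule.span ℤ {z | ∃ m : List B, m.length < k ∧ z = (m.map g).prod}

/-- the span of the sorted products -/
def SO (g : B → A) : Submodule ℤ A :=
  Submodule.span ℤ {z | ∃ m : List B, m.Pairwise (· ≤ ·) ∧ z = (m.map g).prod}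

lemma SP_mul_left (g : B → A) (a : B) (k : ℕ) (z : A) (hz : z ∈ SP g k) :
    g a * z ∈ SP g (k + 1) := by
  unfold SP at hz
  induction hz using Submodule.span_induction with
  | mem z h =>
    obtain ⟨m, h1, rfl⟩ := h
    apply Submodule.subset_span
    refine ⟨a :: m, ?_, ?_⟩
    · simp only [List.length_cons]; omega
    · simp
  | zero => rw [mul_zero]; exact Submodule.zero_mem _
  | add x y _ _ hx hy => rw [mul_add]; exact Submodule.add_mem _ hx hy
  | smul c x _ hx => rw [mul_smul_comm]; exact Submodule.smul_mem _ _ hx

lemma SP_mul_right (g : B → A) (l : List B) (z : A)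
    (hz : z ∈ Submodule.span ℤ (Set.range g)) :
    z * (l.map g).prod ∈ SP g (l.length + 2) := by
  induction hz using Submodule.span_induction with
  | mem z h =>
    obtain ⟨δ, rfl⟩ := h
    apply Submodule.subset_span
    refine ⟨δ :: l, ?_, ?_⟩
    · simp only [List.length_cons]; omega
    · simp
  | zero => rw [zero_mul]; exact Submodule.zero_mem _
  | add x y _ _ hx hy => rw [add_mul]; exact Submodule.add_mem _ hx hy
  | smul c x _ hx => rw [smul_mul_assoc]; exact Submodule.smul_mem _ _ hx

lemma SP_perm (g : B → A)
    (hg : ∀ β γ, g β * g γ - g γ * g β ∈ Submodule.span ℤ (Set.range g))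
    {l l' : List B} (h : l.Perm l') :
    (l.map g).prod - (l'.map g).prod ∈ SP g l.length := by
  induction h with
  | nil => simp
  | cons a _ ih =>
    have h1 := SP_mul_left g a _ _ ih
    rw [mul_sub] at h1
    simpa using h1
  | swap a b l =>
    have h1 := SP_mul_right g l _ (hg b a)
    have e1 : (((b :: a :: l).map g).prod - ((a :: b :: l).map g).prod) =
        (g b * g a - g a * g b) * (l.map g).prod := by
      simp only [List.map_cons, List.prod_cons]
      rw [sub_mul, mul_assoc, mul_assoc]
    rw [e1]
    exact h1
  | trans h1 h2 ih1 ih2 =>
    rw [← h1.length_eq] at ih2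
    have := Submodule.add_mem _ ih1 ih2
    rwa [sub_add_sub_cancel] at this

/-- every product is an integer combination of sorted products -/
theorem sorted_span (g : B → A)
    (hg : ∀ β γ, g β * g γ - g γ * g β ∈ Submodule.span ℤ (Set.range g)) (l : List B) :
    (l.map g).prod ∈ SO g := by
  have key : ∀ n : ℕ, ∀ l : List B, l.length = n → (l.map g).prod ∈ SO g := by
    intro n
    induction n using Nat.strong_induction_on with
    | _ n ih =>
      intro l hl
      have h1 := SP_perm g hg (List.mergeSort_perm l (fun a b => decide (a ≤ b))).symm
      have h2 : SP g l.length ≤ SO g := by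
        unfold SP
        rw [Submodule.span_le]
        rintro z ⟨m, hm, rfl⟩
        exact ih m.length (by omega) m rfl
      have h3 : ((l.mergeSort (fun a b => decide (a ≤ b))).map g).prod ∈ SO g := by
        apply Submodule.subset_span
        refine ⟨_, ?_, rfl⟩
        have h4 := List.pairwise_mergeSort (le := fun a b : B => decide (a ≤ b))
          (fun a b c h1 h2 => by
            simp only [decide_eq_true_eq] at *
            exact le_trans h1 h2)
          (fun a b => by
            simp only [Bool.or_eq_true, decide_eq_true_eq]
            exact le_total a b) l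
        exact h4.imp (fun h => by simpa using h)
      have h5 := (SO g).add_mem (h2 h1) h3
      rwa [sub_add_cancel] at h5
  exact key l.length l rfl

end sort

end Pool.Agent.H391.CV
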