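import Mathlib

set_option autoImplicit false

/-!
# The Lie algebra of type `G₂` over a commutative ring, in a Chevalley basis

`α` is the short simple root, `β` the long one. The basis is `b 0 = h_α`, `b 1 = h_β`, then
`b 2, ..., b 7 = e_γ` for `γ = α, β, α + β, 2 α + β, 3 α + β, 3 α + 2 β`, then
`b 8, ..., b 13 = e_(-γ)` in the same order.
-/

namespace Pool.Agent.H391.CV

universe u

/-- the brackets `[b 0, b j]` for `j = 0, ..., 13`; an entry `(c, k)` stands for `c • b k` -/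
def brR0 : List (List (ℤ × Fin 14)) :=
  [[], [], [(2, 2)], [(-3, 3)], [(-1, 4)], [(1, 5)], [(3, 6)], [], [(-2, 8)], [(3, 9)], [(1, 10)],
  [(-1, 11)], [(-3, 12)], []]

/-- the brackets `[b 1, b j]` for `j = 0, ..., 13`; an entry `(c, k)` stands for `c • b k` -/
def brR1 : List (List (ℤ × Fin 14)) :=
  [[], [], [(-1, 2)], [(2, 3)], [(1, 4)], [], [(-1, 6)], [(1, 7)], [(1, 8)], [(-2, 9)], [(-1,
  10)], [], [(1, 12)], [(-1, 13)]]

/-- the brackets `[b 2, b j]` for `j = 0, ..., 13`; an entry `(c, k)` stands for `c • b k` -/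
def brR2 : List (List (ℤ × Fin 14)) :=
  [[(-2, 2)], [(1, 2)], [], [(-1, 4)], [(-2, 5)], [(-3, 6)], [], [], [(1, 0)], [], [(3, 9)], [(2,
  10)], [(1, 11)], []]

/-- the brackets `[b 3, b j]` for `j = 0, ..., 13`; an entry `(c, k)` stands for `c • b k` -/
def brR3 : List (List (ℤ × Fin 14)) :=
  [[(3, 3)], [(-2, 3)], [(1, 4)], [], [], [], [(-1, 7)], [], [], [(1, 1)], [(-1, 8)], [], [], [(1,
  12)]]

/-- the brackets `[b 4, b j]` for `j = 0, ..., 13`; an entry `(c, k)` stands for `c • b k` -/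
def brR4 : List (List (ℤ × Fin 14)) :=
  [[(1, 4)], [(-1, 4)], [(2, 5)], [], [], [(3, 7)], [], [], [(3, 3)], [(-1, 2)], [(1, 0), (3, 1)],
  [(-2, 8)], [], [(-1, 11)]]

/-- the brackets `[b 5, b j]` for `j = 0, ..., 13`; an entry `(c, k)` stands for `c • b k` -/
def brR5 : List (List (ℤ × Fin 14)) :=
  [[(-1, 5)], [], [(3, 6)], [], [(-3, 7)], [], [], [], [(2, 4)], [], [(-2, 2)], [(2, 0), (3, 1)],
  [(-1, 8)], [(1, 10)]]

/-- the brackets `[b 6, b j]` for `j = 0, ..., 13`; an entry `(c, k)` stands for `c • b k` -/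
def brR6 : List (List (ℤ × Fin 14)) :=
  [[(-3, 6)], [(1, 6)], [], [(1, 7)], [], [], [], [], [(1, 5)], [], [], [(-1, 2)], [(1, 0), (1,
  1)], [(-1, 9)]]

/-- the brackets `[b 7, b j]` for `j = 0, ..., 13`; an entry `(c, k)` stands for `c • b k` -/
def brR7 : List (List (ℤ × Fin 14)) :=
  [[], [(-1, 7)], [], [], [], [], [], [], [], [(1, 6)], [(-1, 5)], [(1, 4)], [(-1, 3)], [(1, 0),
  (2, 1)]]

/-- the brackets `[b 8, b j]` for `j = 0, ..., 13`; an entry `(c, k)` stands for `c • b k` -/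
def brR8 : List (List (ℤ × Fin 14)) :=
  [[(2, 8)], [(-1, 8)], [(-1, 0)], [], [(-3, 3)], [(-2, 4)], [(-1, 5)], [], [], [(1, 10)], [(2,
  11)], [(3, 12)], [], []]

/-- the brackets `[b 9, b j]` for `j = 0, ..., 13`; an entry `(c, k)` stands for `c • b k` -/
def brR9 : List (List (ℤ × Fin 14)) :=
  [[(-3, 9)], [(2, 9)], [], [(-1, 1)], [(1, 2)], [], [], [(-1, 6)], [(-1, 10)], [], [], [], [(1,
  13)], []]

/-- the brackets `[b 10, b j]` for `j = 0, ..., 13`; an entry `(c, k)` stands for `c • b k` -/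
def brR10 : List (List (ℤ × Fin 14)) :=
  [[(-1, 10)], [(1, 10)], [(-3, 9)], [(1, 8)], [(-1, 0), (-3, 1)], [(2, 2)], [], [(1, 5)], [(-2,
  11)], [], [], [(-3, 13)], [], []]

/-- the brackets `[b 11, b j]` for `j = 0, ..., 13`; an entry `(c, k)` stands for `c • b k` -/
def brR11 : List (List (ℤ × Fin 14)) :=
  [[(1, 11)], [], [(-2, 10)], [], [(2, 8)], [(-2, 0), (-3, 1)], [(1, 2)], [(-1, 4)], [(-3, 12)],
  [], [(3, 13)], [], [], []]

/-- the brackets `[b 12, b j]` for `j = 0, ..., 13`; an entry `(c, k)` stands for `c • b k` -/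
def brR12 : List (List (ℤ × Fin 14)) :=
  [[(3, 12)], [(-1, 12)], [(-1, 11)], [], [], [(1, 8)], [(-1, 0), (-1, 1)], [(1, 3)], [], [(-1,
  13)], [], [], [], []]

/-- the brackets `[b 13, b j]` for `j = 0, ..., 13`; an entry `(c, k)` stands for `c • b k` -/
def brR13 : List (List (ℤ × Fin 14)) :=
  [[], [(1, 13)], [], [(-1, 12)], [(1, 11)], [(-1, 10)], [(1, 9)], [(-1, 0), (-2, 1)], [], [], [],
  [], [], []]

/-- The brackets of the Chevalley basis: the list in row `i` and column `j` (both counted from `0`)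
gives `[b i, b j]`, the entry `(c, k)` standing for `c • b k`. -/
def brT : List (List (List (ℤ × Fin 14))) :=
  [brR0, brR1, brR2, brR3, brR4, brR5, brR6, brR7, brR8, brR9, brR10, brR11, brR12, brR13]

/-- `[b i, b j]` as a list of pairs (coefficient, index) -/
def br (i j : Fin 14) : List (ℤ × Fin 14) := (brT.getD i.val []).getD j.val []

/-- The Gram matrix of the normalised invariant form (long roots have squared length `2`). -/
def fmT : List (List ℤ) := [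
   [6, -3, 0, 0, 0, 0, 0, 0, 0, 0, 0, 0, 0, 0],
   [-3, 2, 0, 0, 0, 0, 0, 0, 0, 0, 0, 0, 0, 0],
   [0, 0, 0, 0, 0, 0, 0, 0, 3, 0, 0, 0, 0, 0],
   [0, 0, 0, 0, 0, 0, 0, 0, 0, 1, 0, 0, 0, 0],
   [0, 0, 0, 0, 0, 0, 0, 0, 0, 0, 3, 0, 0, 0],
   [0, 0, 0, 0, 0, 0, 0, 0, 0, 0, 0, 3, 0, 0],
   [0, 0, 0, 0, 0, 0, 0, 0, 0, 0, 0, 0, 1, 0],
   [0, 0, 0, 0, 0, 0, 0, 0, 0, 0, 0, 0, 0, 1],
   [0, 0, 3, 0, 0, 0, 0, 0, 0, 0, 0, 0, 0, 0],
   [0, 0, 0, 1, 0, 0, 0, 0, 0, 0, 0, 0, 0, 0],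
   [0, 0, 0, 0, 3, 0, 0, 0, 0, 0, 0, 0, 0, 0],
   [0, 0, 0, 0, 0, 3, 0, 0, 0, 0, 0, 0, 0, 0],
   [0, 0, 0, 0, 0, 0, 1, 0, 0, 0, 0, 0, 0, 0],
   [0, 0, 0, 0, 0, 0, 0, 1, 0, 0, 0, 0, 0, 0]]

/-- the value of the form at `(b i, b j)` -/
def fm (i j : Fin 14) : ℤ := (fmT.getD i.val []).getD j.val 0

/-- the total coefficient of the index `k` in a list -/
def co (l : List (ℤ × Fin 14)) (k : Fin 14) : ℤ :=
  (l.map fun t => if t.2 = k then t.1 else 0).sum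

/-! ### The table is a Chevalley basis of type `G₂` -/

/-- the weights of the basis vectors, in coordinates with respect to `α` and `β` -/
def rt : Fin 14 → ℤ × ℤ := ![(0, 0), (0, 0), (1, 0), (0, 1), (1, 1), (2, 1), (3, 1), (3, 2),
  (-1, 0), (0, -1), (-1, -1), (-2, -1), (-3, -1), (-3, -2)]

/-- the coroots `h_γ` in terms of `h_α` and `h_β` -/
def crt : Fin 14 → ℤ × ℤ := ![(0, 0), (0, 0), (1, 0), (0, 1), (1, 3), (2, 3), (1, 1), (1, 2),
  (-1, 0), (0, -1), (-1, -3), (-2, -3), (-1, -1), (-1, -2)]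

/-- `γ(h)` for `h = u h_α + v h_β` -/
def prg (g u : ℤ × ℤ) : ℤ := u.1 * (2 * g.1 - 3 * g.2) + u.2 * (-g.1 + 2 * g.2)

/-- is it a root? -/
def isRt (g : ℤ × ℤ) : Bool := (g != (0, 0)) && (List.finRange 14).any (fun k => rt k == g)

/-- the number of `k ∈ {1, 2, 3}` for which `d - k g` is a root -/
def rstr (g d : ℤ × ℤ) : ℤ :=
  ([1, 2, 3].filter fun k : ℤ => isRt (d.1 - k * g.1, d.2 - k * g.2)).length

/-- `γ(h_γ) = 2`, so that `h_γ` is the coroot of `γ`. -/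
lemma chev_cor : ∀ j : Fin 14, 2 ≤ j → prg (rt j) (crt j) = 2 := by decide +kernel

/-- The Cartan elements commute. -/
lemma chev_hh : ∀ i j : Fin 14, i < 2 → j < 2 → br i j = [] := by decide +kernel

/-- `[h_α, e_γ] = γ(h_α) e_γ` and `[h_β, e_γ] = γ(h_β) e_γ`. -/
lemma chev_he : ∀ j : Fin 14, 2 ≤ j →
    (∀ k, co (br 0 j) k = if k = j then prg (rt j) (1, 0) else 0) ∧
    (∀ k, co (br 1 j) k = if k = j then prg (rt j) (0, 1) else 0) := by decide +kernel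

/-- `[e_γ, e_(-γ)] = h_γ`. -/
lemma chev_ef : ∀ i j : Fin 14, 2 ≤ i → 2 ≤ j → rt j = (-(rt i).1, -(rt i).2) →
    ∀ k, co (br i j) k = if k = 0 then (crt i).1 else if k = 1 then (crt i).2 else 0 := by
  decide +kernel

/-- `[e_γ, e_δ] = ± (r + 1) e_(γ + δ)` if `γ + δ` is a root, with `r` the largest integer such that
`δ - r γ` is a root, and `[e_γ, e_δ] = 0` if `γ + δ` is neither a root nor zero. -/
lemma chev_ee : ∀ i j : Fin 14, 2 ≤ i → 2 ≤ j → rt j ≠ (-(rt i).1, -(rt i).2) →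
    (isRt ((rt i).1 + (rt j).1, (rt i).2 + (rt j).2) = false → br i j = []) ∧
    (∀ m : Fin 14, 2 ≤ m → rt m = ((rt i).1 + (rt j).1, (rt i).2 + (rt j).2) →
      br i j = [(rstr (rt i) (rt j) + 1, m)] ∨ br i j = [(-(rstr (rt i) (rt j) + 1), m)]) := by
  decide +kernel

/-- The form: `⟨h_γ, h_δ⟩` is integral with `⟨h_γ, h_γ⟩ = 2 ⟨e_γ, e_(-γ)⟩`, and `⟨e_γ, e_(-γ)⟩` is
`1` for the long roots and `3` for the short roots. -/
lemma chev_form : ∀ i j : Fin 14, 2 ≤ i → 2 ≤ j →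
    (rt j ≠ (-(rt i).1, -(rt i).2) → fm i j = 0) ∧
    (rt j = (-(rt i).1, -(rt i).2) → (fm i j = 1 ∨ fm i j = 3) ∧
      fm 0 0 * (crt i).1 ^ 2 + 2 * fm 0 1 * (crt i).1 * (crt i).2 + fm 1 1 * (crt i).2 ^ 2 =
        2 * fm i j) := by decide +kernel

end Pool.Agent.H391.CV
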