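import Pool.Agent.H391.CV.T

set_option autoImplicit false

/-! Computations with the table of structure constants. -/

namespace Pool.Agent.H391.CV

/-- multiplication by a constant -/
def scl (c : ℤ) (l : List (ℤ × Fin 14)) : List (ℤ × Fin 14) := l.map fun t => (c * t.1, t.2)

/-- the bracket of `b i` with the vector given by a list -/
def brL (i : Fin 14) (l : List (ℤ × Fin 14)) : List (ℤ × Fin 14) :=
  l.flatMap fun t => scl t.1 (br i t.2)

/-- the value of the form at `b i` and the vector given by a list -/
def fmL (i : Fin 14) (l : List (ℤ × Fin 14)) : ℤ := (l.map fun t => t.1 * fm i t.2).sum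

/-- all coefficients vanish -/
def isZ (l : List (ℤ × Fin 14)) : Bool := l.all fun t => co l t.2 == 0

lemma anti_br : ∀ i j : Fin 14, isZ (br i j ++ br j i) = true := by decide +kernel

lemma self_br : ∀ i : Fin 14, br i i = [] := by decide +kernel

lemma jac_br : ∀ i j k : Fin 14,
    isZ (brL i (br j k) ++ brL k (br i j) ++ scl (-1) (brL j (br i k))) = true := by
  decide +kernel

lemma fm_symm : ∀ i j : Fin 14, fm i j = fm j i := by decide +kernel

lemma fm_inv : ∀ i j k : Fin 14, fmL k (br i j) = fmL i (br j k) := by decide +kernel


end Pool.Agent.H391.CV
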