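import Pool.Agent.H391.CV.P

set_option autoImplicit false
set_option linter.unusedVariables false

/-! The vertex subalgebra generated by central vectors without linear and cubic part. -/

attribute [local instance 100] LieRing.ofAssociativeRing

namespace Pool.Agent.H391.CV

universe u

open Polynomial

section

variable {K : Type u} [Field K] {κ : K}

section fixA

variable (A : VertexAlgebra K (Vk K κ)) (h1 : A.one = vac κ)
    (hA : ∀ (x : G2 K) (n : ℤ) (u : Vk K κ), A.prod n (act κ x (-1) (vac κ)) u = act κ x n u)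

include h1 hA

lemma prod_zero (n : ℤ) (a : Vk K κ) : A.prod n a 0 = 0 := by
  have := A.prod_smul n (0 : K) a 0
  rwa [zero_smul, zero_smul] at this

lemma zero_prod (n : ℤ) (a : Vk K κ) : A.prod n 0 a = 0 := by
  have := A.smul_prod n (0 : K) 0 a
  rwa [zero_smul, zero_smul] at this

/-- vectors killed by the nonnegative modes are central -/
theorem central_of {v : Vk K κ} (hv : ∀ (x : G2 K) (n : ℤ), 0 ≤ n → act κ x n v = 0) :
    v ∈ A.centre := by
  intro a
  induction a using Vk.negInd with
  | h1 =>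
    intro n hn
    rw [← h1, A.one_prod, if_neg (by omega)]
  | ha u w hu hw =>
    intro n hn
    rw [A.add_prod, hu n hn, hw n hn, add_zero]
  | hs r u hu =>
    intro n hn
    rw [A.smul_prod, hu n hn, smul_zero]
  | hz x m u hm hu =>
    intro n hn
    have e1 : act κ x m u = A.prod m (act κ x (-1) (vac κ)) u := (hA x m u).symm
    rw [e1]
    set a := act κ x (-1) (vac κ) with ha
    have hav : ∀ k : ℤ, 0 ≤ k → A.prod k a v = 0 := fun k hk => by rw [hA, hv x k hk]
    have hb := A.borcherds a u v m 0 n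
    unfold borL borR at hb
    rw [finsum_eq_single _ 0 (by
      intro i hi
      obtain ⟨j, rfl⟩ := Nat.exists_eq_succ_of_ne_zero hi
      rw [Ring.choose_zero_succ, zero_smul])] at hb
    rw [Ring.choose_zero_right, one_smul] at hb
    simp only [Nat.cast_zero, add_zero, sub_zero, zero_add] at hb
    rw [hb]
    rw [finsum_eq_zero_of_forall_eq_zero]
    intro i
    rw [hu (n + i) (by omega), hav i (by omega), prod_zero A h1 hA, prod_zero A h1 hA, smul_zero,
      sub_zero, smul_zero]

/-- the products with a central vector commute with all modes -/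
lemma comm_of {a : Vk K κ} (ha : ∀ (x : G2 K) (n : ℤ), 0 ≤ n → act κ x n a = 0) (x : G2 K)
    (m n : ℤ) (u : Vk K κ) : A.prod n a (act κ x m u) = act κ x m (A.prod n a u) := by
  have hb := A.borcherds (act κ x (-1) (vac κ)) a u 0 m n
  unfold borL borR at hb
  rw [finsum_eq_zero_of_forall_eq_zero, finsum_eq_single _ 0] at hb
  · simp only [Ring.choose_zero_right, pow_zero, mul_one, one_smul, Nat.cast_zero, add_zero,
      sub_zero, Int.negOnePow_zero, Units.val_one] at hb
    rw [hA, hA] at hb
    exact (sub_eq_zero.1 hb.symm).symm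
  · intro i hi
    obtain ⟨j, rfl⟩ := Nat.exists_eq_succ_of_ne_zero hi
    rw [Ring.choose_zero_succ, mul_zero, zero_smul]
  · intro i
    rw [hA, ha _ _ (by omega), zero_prod A h1 hA, smul_zero]

variable (ω : K) (ψ : Vk K κ →ₗ[K] K[X]) (p1 : ψ (vac κ) = 1)
    (p2 : ∀ (x : G2 K) (v : Vk K κ), ψ (act κ x (-1) v) = sT K ω x * ψ v)
    (p3 : ∀ (x : G2 K) (n : ℤ) (v : Vk K κ), n < -1 → ψ (act κ x n v) = 0)

include p1 p2 p3

/-- translates have no symbol -/
lemma trans_symb (v : Vk K κ) : ∀ n : ℤ, n < -1 → ψ (A.prod n v (vac κ)) = 0 := by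
  induction v using Vk.negInd with
  | h1 =>
    intro n hn
    rw [← h1, A.one_prod, if_neg (by omega), map_zero]
  | ha u w hu hw =>
    intro n hn
    rw [A.add_prod, map_add, hu n hn, hw n hn, add_zero]
  | hs r u hu =>
    intro n hn
    rw [A.smul_prod, map_smul, hu n hn, smul_zero]
  | hz x m u hm hu =>
    intro n hn
    have e1 : act κ x m u = A.prod m (act κ x (-1) (vac κ)) u := (hA x m u).symm
    rw [e1]
    have hb := A.borcherds (act κ x (-1) (vac κ)) u (vac κ) m 0 n
    unfold borL borR at hb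
    rw [finsum_eq_single _ 0 (by
      intro i hi
      obtain ⟨j, rfl⟩ := Nat.exists_eq_succ_of_ne_zero hi
      rw [Ring.choose_zero_succ, zero_smul])] at hb
    rw [Ring.choose_zero_right, one_smul] at hb
    simp only [Nat.cast_zero, add_zero, sub_zero, zero_add] at hb
    rw [hb]
    refine finsum_induction (fun w => ψ w = 0) (map_zero _) (fun x y hx hy => ?_) (fun i => ?_)
    · rw [map_add, hx, hy, add_zero]
    · have e2 : A.prod i (act κ x (-1) (vac κ)) (vac κ) = 0 := by
        rw [hA, act_vac (by omega)]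
      rw [e2, prod_zero A h1 hA, smul_zero, sub_zero, map_zsmul, hA]
      have e3 : ψ (act κ x (m - i) (A.prod (n + i) u (vac κ))) = 0 := by
        rcases lt_or_ge (m - i) (-1) with hlt | hge
        · exact p3 _ _ _ hlt
        · have hi : i = 0 := by omega
          subst hi
          have hm1 : m - ((0 : ℕ) : ℤ) = -1 := by
            push_cast at *
            omega
          rw [hm1, p2, Nat.cast_zero, add_zero, hu n hn, mul_zero]
      rw [e3, smul_zero]

/-- the symbol of a product with a central vector -/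
lemma prod_symb {a : Vk K κ} (ha : ∀ (x : G2 K) (n : ℤ), 0 ≤ n → act κ x n a = 0)
    (b : Vk K κ) (n : ℤ) : ψ (A.prod n a b) = if n = -1 then ψ a * ψ b else 0 := by
  induction b using Vk.negInd with
  | h1 =>
    rcases lt_trichotomy n (-1) with hn | rfl | hn
    · rw [trans_symb A h1 hA ω ψ p1 p2 p3 a n hn, if_neg (by omega)]
    · rw [← h1, A.prod_neg_one, if_pos rfl, h1, p1, mul_one]
    · rw [← h1, A.prod_one n a (by omega), map_zero, if_neg (by omega)]
  | ha u w hu hw =>
    rw [A.prod_add, map_add, hu, hw, map_add]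
    split_ifs
    · ring
    · ring
  | hs r u hu =>
    rw [A.prod_smul, map_smul, hu, map_smul]
    split_ifs
    · rw [mul_smul_comm]
    · rw [smul_zero]
  | hz x m u hm hu =>
    rw [comm_of A h1 hA ha]
    rcases lt_or_ge m (-1) with hlt | hge
    · rw [p3 _ _ _ hlt, p3 _ _ _ hlt, mul_zero, ite_self]
    · have hm1 : m = -1 := by omega
      subst hm1
      rw [p2, p2, hu]
      split_ifs
      · ring
      · ring

/-- the subspace of central vectors without linear and cubic part -/
noncomputable def NN : Submodule K (Vk K κ) where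
  carrier := {v | (∀ (x : G2 K) (n : ℤ), 0 ≤ n → act κ x n v = 0) ∧ ψ v ∈ Gd K}
  add_mem' := by
    rintro a b ⟨ha1, ha2⟩ ⟨hb1, hb2⟩
    refine ⟨fun x n hn => ?_, ?_⟩
    · rw [map_add, ha1 x n hn, hb1 x n hn, add_zero]
    · rw [map_add]; exact (Gd K).add_mem ha2 hb2
  zero_mem' := by
    refine ⟨fun x n hn => map_zero _, ?_⟩
    rw [map_zero]; exact (Gd K).zero_mem
  smul_mem' := by
    rintro r a ⟨ha1, ha2⟩
    refine ⟨fun x n hn => ?_, ?_⟩
    · rw [map_smul, ha1 x n hn, smul_zero]
    · rw [map_smul]; exact (Gd K).smul_mem ha2 r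

/-- a generated vertex subalgebra contains no vector with a cubic part -/
theorem not_gen (S : Set (Vk K κ)) (hS : ∀ v ∈ S,
    (∀ (x : G2 K) (n : ℤ), 0 ≤ n → act κ x n v = 0) ∧ ψ v ∈ Gd K) {v : Vk K κ}
    (hv : ψ v ∉ Gd K) : v ∉ A.gen S := by
  intro h
  have h2 := h (NN ψ) ?_ (fun v hv => hS v hv) ?_
  · exact hv h2.2
  · rw [h1]
    refine ⟨fun x n hn => act_vac hn, ?_⟩
    rw [p1]
    exact (Gd K).one_mem
  · rintro n a ⟨ha1, ha2⟩ b ⟨hb1, hb2⟩
    refine ⟨fun x k hk => ?_, ?_⟩
    · rw [← comm_of A h1 hA ha1, hb1 x k hk, prod_zero A h1 hA]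
    · rw [prod_symb A h1 hA ω ψ p1 p2 p3 ha1]
      split_ifs
      · exact (Gd K).mul_mem ha2 hb2
      · exact (Gd K).zero_mem

end fixA

end

end Pool.Agent.H391.CV
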