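import Pool.Agent.H391.CV.E
import Pool.Agent.H391.CV.S
import Pool.Graph.R_seed8.Y351.LQ.PBWB

set_option autoImplicit false
set_option linter.unusedVariables false

/-! Integral words in the negative modes, and the comparison of two base fields. -/

attribute [local instance 100] LieRing.ofAssociativeRing

namespace Pool.Agent.H391.CV

universe u

/-- the symbol of `(b a)_(-n-1)` -/
noncomputable abbrev gw (n : ℕ) (a : Fin 14) : FW := FreeAlgebra.ι ℤ (n, a)

lemma FW.ind {Q : FW → Prop} (h1 : Q 1) (ha : ∀ u v, Q u → Q v → Q (u + v))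
    (hs : ∀ (r : ℤ) u, Q u → Q (r • u)) (hz : ∀ n a u, Q u → Q (gw n a * u)) (P : FW) : Q P := by
  let S : Subalgebra ℤ FW :=
    { carrier := {w | ∀ u, Q u → Q (w * u)}
      mul_mem' := by
        intro a b ha' hb' u hu
        rw [mul_assoc]
        exact ha' _ (hb' _ hu)
      add_mem' := by
        intro a b ha' hb' u hu
        rw [add_mul]
        exact ha _ _ (ha' _ hu) (hb' _ hu)
      algebraMap_mem' := by
        intro r u hu
        rw [← Algebra.smul_def]
        exact hs r u hu }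
  have h3 : P ∈ S := by
    have h4 : (⊤ : Subalgebra ℤ FW) ≤ S := by
      rw [← FreeAlgebra.adjoin_range_ι, Algebra.adjoin_le_iff]
      rintro _ ⟨t, rfl⟩
      exact fun u hu => hz t.1 t.2 u hu
    exact h4 Algebra.mem_top
  have h5 := h3 1 h1
  rwa [mul_one] at h5

section one

variable {K : Type u} [Field K] (κ : K)

lemma eU_gw (n : ℕ) (a : Fin 14) : eU K (gw n a) = iA (el (e a : G2 K) (-(n : ℤ) - 1)) :=
  FreeAlgebra.lift_ι_apply _ _

lemma lat_one : lat κ 1 = vac κ := by
  unfold lat; rw [map_one, one_smul]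

lemma lat_zero : lat κ 0 = 0 := by
  unfold lat; rw [map_zero, zero_smul]

lemma lat_add (P Q : FW) : lat κ (P + Q) = lat κ P + lat κ Q := by
  unfold lat; rw [map_add, add_smul]

lemma lat_smul (r : ℤ) (P : FW) : lat κ (r • P) = (r : K) • lat κ P := by
  unfold lat
  rw [map_zsmul, ← Int.cast_smul_eq_zsmul K, smul_assoc]

lemma lat_gw (n : ℕ) (a : Fin 14) (P : FW) :
    lat κ (gw n a * P) = act κ (e a) (-(n : ℤ) - 1) (lat κ P) := by
  unfold lat
  rw [map_mul, eU_gw, mul_smul]
  rfl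

lemma act_add (x y : G2 K) (n : ℤ) (v : Vk K κ) : act κ (x + y) n v = act κ x n v + act κ y n v := by
  rw [← actL_el, ← actL_el, ← actL_el, el_add, map_add, LinearMap.add_apply]

lemma act_smul (r : K) (x : G2 K) (n : ℤ) (v : Vk K κ) : act κ (r • x) n v = r • act κ x n v := by
  rw [← actL_el, ← actL_el, el_smul, map_smul, LinearMap.smul_apply]

lemma act_zero (n : ℤ) (v : Vk K κ) : act κ (0 : G2 K) n v = 0 := by
  have := act_smul κ 0 (0 : G2 K) n v
  rwa [zero_smul, zero_smul] at this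

end one

/-- the modes of basis elements act on integral vectors, uniformly in the base field -/
theorem straight (K₁ : Type) [Field K₁] (K₂ : Type u) [Field K₂] (k : ℤ) (P : FW) :
    ∀ (n : ℤ) (a : Fin 14), ∃ Q : FW, act (k : K₁) (e a) n (lat (k : K₁) P) = lat (k : K₁) Q ∧
      act (k : K₂) (e a) n (lat (k : K₂) P) = lat (k : K₂) Q := by
  induction P using FW.ind with
  | h1 =>
    intro n a
    rcases lt_or_ge n 0 with hn | hn
    · obtain ⟨m, rfl⟩ : ∃ m : ℕ, n = -(m : ℤ) - 1 := ⟨(-n - 1).toNat, by omega⟩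
      refine ⟨gw m a * 1, ?_, ?_⟩ <;> rw [lat_gw]
    · refine ⟨0, ?_, ?_⟩ <;> rw [lat_one, lat_zero, act_vac hn]
  | ha u v hu hv =>
    intro n a
    obtain ⟨Q, h1, h2⟩ := hu n a
    obtain ⟨Q', h1', h2'⟩ := hv n a
    refine ⟨Q + Q', ?_, ?_⟩
    · rw [lat_add, lat_add, map_add, h1, h1']
    · rw [lat_add, lat_add, map_add, h2, h2']
  | hs r u hu =>
    intro n a
    obtain ⟨Q, h1, h2⟩ := hu n a
    refine ⟨r • Q, ?_, ?_⟩
    · rw [lat_smul, lat_smul, map_smul, h1]
    · rw [lat_smul, lat_smul, map_smul, h2]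
  | hz m b u hu =>
    intro n a
    obtain ⟨Q, h1, h2⟩ := hu n a
    have hl : ∀ l : List (ℤ × Fin 14), ∃ Q' : FW,
        act (k : K₁) (vec l) (n + (-(m : ℤ) - 1)) (lat (k : K₁) u) = lat (k : K₁) Q' ∧
        act (k : K₂) (vec l) (n + (-(m : ℤ) - 1)) (lat (k : K₂) u) = lat (k : K₂) Q' := by
      intro l
      induction l with
      | nil => exact ⟨0, by rw [vec_nil, act_zero, lat_zero], by rw [vec_nil, act_zero, lat_zero]⟩
      | cons t l ih =>
        obtain ⟨Q', h3, h4⟩ := ih
        obtain ⟨Q'', h5, h6⟩ := hu (n + (-(m : ℤ) - 1)) t.2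
        refine ⟨t.1 • Q'' + Q', ?_, ?_⟩
        · rw [vec_cons, act_add, act_smul, h3, h5, lat_add, lat_smul]
        · rw [vec_cons, act_add, act_smul, h4, h6, lat_add, lat_smul]
    obtain ⟨Q', h3, h4⟩ := hl (br a b)
    refine ⟨gw m b * Q + Q' + ((if n + (-(m : ℤ) - 1) = 0 then n * fm a b else 0) * k) • u, ?_, ?_⟩
    · rw [lat_gw, act_comm, h1, lat_add, lat_add, lat_gw, lat_smul, kf_e, ← h3]
      rw [show (⁅(e a : G2 K₁), e b⁆ : G2 K₁) = vec (br a b) from e_br a b]
      congr 2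
      push_cast
      split_ifs <;> simp
    · rw [lat_gw, act_comm, h2, lat_add, lat_add, lat_gw, lat_smul, kf_e, ← h4]
      rw [show (⁅(e a : G2 K₂), e b⁆ : G2 K₂) = vec (br a b) from e_br a b]
      congr 2
      push_cast
      split_ifs <;> simp

end Pool.Agent.H391.CV
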