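import Pool.Agent.H391.CV.W

set_option autoImplicit false
set_option linter.unusedVariables false

/-! An integral word that vanishes over the complex numbers vanishes over every field. -/

attribute [local instance 100] LieRing.ofAssociativeRing

namespace Pool.Agent.H391.CV

universe u

/-- the index set of the basis of the affine Lie algebra -/
def J : Type := (Σ _ : ℤ, Fin 14) ⊕ Unit

noncomputable instance : LinearOrder J :=
  LinearOrder.lift' (fun x : J => Encodable.encode (show (Σ _ : ℤ, Fin 14) ⊕ Unit from x))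
    (@Encodable.encode_injective ((Σ _ : ℤ, Fin 14) ⊕ Unit) _)

/-- the basis elements of the affine Lie algebra -/
noncomputable def bel (K : Type u) [Field K] : J → Aff K
  | Sum.inl t => el (e t.2 : G2 K) t.1
  | Sum.inr _ => cel

/-- the basis of the affine Lie algebra -/
noncomputable def bJ : Module.Basis J ℂ (Aff ℂ) :=
  (Module.Basis.prod (Finsupp.basis fun _ : ℤ => Pi.basisFun ℂ (Fin 14))
    (Module.Basis.singleton Unit ℂ) : Module.Basis ((Σ _ : ℤ, Fin 14) ⊕ Unit) ℂ
      ((ℤ →₀ (Fin 14 → ℂ)) × ℂ))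

lemma bJ_eq (j : J) : bJ j = bel ℂ j := by
  rcases j with ⟨n, a⟩ | t
  · apply Prod.ext
    · change (((Module.Basis.prod (Finsupp.basis fun _ : ℤ => Pi.basisFun ℂ (Fin 14))
        (Module.Basis.singleton Unit ℂ)) (Sum.inl ⟨n, a⟩) :
          (ℤ →₀ (Fin 14 → ℂ)) × ℂ)).1 = Finsupp.single n (e a : G2 ℂ)
      rw [Module.Basis.prod_apply_inl_fst, Finsupp.coe_basis]
      change Finsupp.single n ((Pi.basisFun ℂ (Fin 14)) a) = _
      rw [Pi.basisFun_apply]
      rfl
    · change (((Module.Basis.prod (Finsupp.basis fun _ : ℤ => Pi.basisFun ℂ (Fin 14))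
        (Module.Basis.singleton Unit ℂ)) (Sum.inl ⟨n, a⟩) :
          (ℤ →₀ (Fin 14 → ℂ)) × ℂ)).2 = 0
      rw [Module.Basis.prod_apply_inl_snd]
  · apply Prod.ext
    · change (((Module.Basis.prod (Finsupp.basis fun _ : ℤ => Pi.basisFun ℂ (Fin 14))
        (Module.Basis.singleton Unit ℂ)) (Sum.inr t) :
          (ℤ →₀ (Fin 14 → ℂ)) × ℂ)).1 = 0
      rw [Module.Basis.prod_apply_inr_fst]
    · change (((Module.Basis.prod (Finsupp.basis fun _ : ℤ => Pi.basisFun ℂ (Fin 14))
        (Module.Basis.singleton Unit ℂ)) (Sum.inr t) :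
          (ℤ →₀ (Fin 14 → ℂ)) × ℂ)).2 = 1
      rw [Module.Basis.prod_apply_inr_snd, Module.Basis.singleton_apply]

/-- the index of `(b a)_n` -/
def jm (n : ℤ) (a : Fin 14) : J := Sum.inl ⟨n, a⟩

lemma bel_jm (K : Type u) [Field K] (n : ℤ) (a : Fin 14) : bel K (jm n a) = el (e a) n := rfl

/-- the negative indices -/
abbrev NJ : Type := {j : J // ∃ (n : ℤ) (a : Fin 14), n < 0 ∧ j = jm n a}

/-- the negative index of `(b a)_n` -/
def mkN (n : ℤ) (a : Fin 14) (h : n < 0) : NJ := ⟨jm n a, n, a, h, rfl⟩

/-- the pair of elements given by a negative index -/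
noncomputable def gP (K : Type u) [Field K] (j : NJ) : UAff ℂ × UAff K :=
  (iA (bel ℂ j.1), iA (bel K j.1))

lemma gP_comm (K : Type u) [Field K] (i j : NJ) :
    gP K i * gP K j - gP K j * gP K i ∈ Submodule.span ℤ (Set.range (gP K)) := by
  obtain ⟨_, n, a, hn, rfl⟩ := i
  obtain ⟨_, m, b, hm, rfl⟩ := j
  have h1 : ∀ (F : Type u) [Field F], iA (el (e a : G2 F) n) * iA (el (e b : G2 F) m) -
      iA (el (e b : G2 F) m) * iA (el (e a : G2 F) n) = iA (el (vec (br a b) : G2 F) (n + m)) := by
    intro F _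
    rw [← LieRing.of_associative_ring_bracket, ← LieHom.map_lie, br_el, if_neg (by omega),
      zero_smul, add_zero]
    rw [show (⁅(e a : G2 F), e b⁆ : G2 F) = vec (br a b) from e_br a b]
  have h1' : iA (el (e a : G2 ℂ) n) * iA (el (e b : G2 ℂ) m) -
      iA (el (e b : G2 ℂ) m) * iA (el (e a : G2 ℂ) n) = iA (el (vec (br a b) : G2 ℂ) (n + m)) := by
    rw [← LieRing.of_associative_ring_bracket, ← LieHom.map_lie, br_el, if_neg (by omega),
      zero_smul, add_zero]
    rw [show (⁅(e a : G2 ℂ), e b⁆ : G2 ℂ) = vec (br a b) from e_br a b]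
  have h2 : gP K (mkN n a hn) * gP K (mkN m b hm) -
      gP K (mkN m b hm) * gP K (mkN n a hn) =
      (iA (el (vec (br a b) : G2 ℂ) (n + m)), iA (el (vec (br a b) : G2 K) (n + m))) := by
    rw [← h1, ← h1']
    rfl
  refine (congrArg (· ∈ Submodule.span ℤ (Set.range (gP K))) h2).mpr ?_
  generalize br a b = l
  induction l with
  | nil =>
    rw [vec_nil, vec_nil, el_zero, el_zero]
    have : ((iA (0 : Aff ℂ) : UAff ℂ), (iA (0 : Aff K) : UAff K)) = 0 :=
      Prod.ext (map_zero _) (map_zero _)
    rw [this]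
    exact Submodule.zero_mem _
  | cons t l ih =>
    have h3 : ((iA (el (vec (t :: l) : G2 ℂ) (n + m)) : UAff ℂ),
        (iA (el (vec (t :: l) : G2 K) (n + m)) : UAff K)) =
        t.1 • gP K (mkN (n + m) t.2 (by omega)) +
        (iA (el (vec l : G2 ℂ) (n + m)), iA (el (vec l : G2 K) (n + m))) := by
      apply Prod.ext
      · change (iA (el (vec (t :: l) : G2 ℂ) (n + m)) : UAff ℂ) =
          t.1 • iA (el (e t.2 : G2 ℂ) (n + m)) + iA (el (vec l : G2 ℂ) (n + m))
        rw [vec_cons, el_add, el_smul]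
        unfold iA
        rw [map_add, map_smul, Int.cast_smul_eq_zsmul]
      · change (iA (el (vec (t :: l) : G2 K) (n + m)) : UAff K) =
          t.1 • iA (el (e t.2 : G2 K) (n + m)) + iA (el (vec l : G2 K) (n + m))
        rw [vec_cons, el_add, el_smul]
        unfold iA
        rw [map_add, map_smul, Int.cast_smul_eq_zsmul]
    rw [h3]
    exact Submodule.add_mem _ (Submodule.smul_mem _ _ (Submodule.subset_span ⟨_, rfl⟩)) ih

/-- the values of an integral word over both fields -/
lemma pair_mem (K : Type u) [Field K] (P : FW) : (eU ℂ P, eU K P) ∈ SO (gP K) := by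
  have h0 : (eU ℂ P, eU K P) ∈ Submodule.span ℤ
      {z | ∃ l : List NJ, z = (l.map (gP K)).prod} := by
    induction P using FW.ind with
    | h1 =>
      rw [map_one, map_one]
      exact Submodule.subset_span ⟨[], rfl⟩
    | ha u v hu hv =>
      rw [map_add, map_add]
      exact Submodule.add_mem _ hu hv
    | hs r u hu =>
      rw [map_smul, map_smul]
      exact Submodule.smul_mem _ r hu
    | hz n a u hu =>
      have h1 : (eU ℂ (gw n a * u), eU K (gw n a * u)) =
          gP K (mkN (-(n : ℤ) - 1) a (by omega)) *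
            (eU ℂ u, eU K u) := by
        rw [map_mul, map_mul, eU_gw, eU_gw]
        rfl
      rw [h1]
      generalize mkN (-(n : ℤ) - 1) a (by omega) = g'
      generalize (eU ℂ u, eU K u) = w at hu
      induction hu using Submodule.span_induction with
      | mem z h =>
        obtain ⟨l, rfl⟩ := h
        exact Submodule.subset_span ⟨g' :: l, by rw [List.map_cons, List.prod_cons]⟩
      | zero => rw [mul_zero]; exact Submodule.zero_mem _
      | add x y _ _ hx hy => rw [mul_add]; exact Submodule.add_mem _ hx hy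
      | smul c x _ hx => rw [mul_smul_comm]; exact Submodule.smul_mem _ _ hx
  refine Submodule.span_le.2 ?_ h0
  rintro _ ⟨l, rfl⟩
  exact sorted_span (gP K) (gP_comm K) l

/-- sorted lists of negative indices, as sorted lists of indices -/
noncomputable def inc (l : {l : List NJ // l.Pairwise (· ≤ ·)}) :
    {l : List J // l.Pairwise (· ≤ ·)} :=
  ⟨l.1.map Subtype.val, List.pairwise_map.2 (l.2.imp fun h => h)⟩

lemma inc_inj : Function.Injective inc := by
  intro l l' h
  have h1 : l.1.map Subtype.val = l'.1.map Subtype.val := congrArg Subtype.val h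
  exact Subtype.ext (List.map_injective_iff.2 Subtype.val_injective h1)

/-- a combination that vanishes over the complex numbers vanishes -/
theorem zero_of (K : Type u) [Field K] {z : UAff ℂ × UAff K} (hz : z ∈ SO (gP K))
    (h : z.1 = 0) : z.2 = 0 := by
  obtain ⟨β, hβ⟩ := Pool.Agent.Y351.LQ.t_PBWB ℂ (Aff ℂ) J bJ
  have h1 : z ∈ Submodule.span ℤ (Set.range
      (fun l : {l : List NJ // l.Pairwise (· ≤ ·)} => (l.1.map (gP K)).prod)) := by
    refine Submodule.span_mono ?_ hz
    rintro _ ⟨m, hm, rfl⟩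
    exact ⟨⟨m, hm⟩, rfl⟩
  rw [Finsupp.mem_span_range_iff_exists_finsupp] at h1
  obtain ⟨c, rfl⟩ := h1
  have hfst : ∀ l : List NJ, ((l.map (gP K)).prod).1 =
      (l.map (fun j => (iA (bel ℂ j.1) : UAff ℂ))).prod := by
    intro l
    induction l with
    | nil => rfl
    | cons a l ih => rw [List.map_cons, List.prod_cons, List.map_cons, List.prod_cons, ← ih]; rfl
  have h2 : (c.sum fun i a => (a : ℂ) • β (inc i)) = 0 := by
    have h3 : (c.sum fun i a => a • (i.1.map (gP K)).prod).1 =
        c.sum fun i a => (a • (i.1.map (gP K)).prod).1 := by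
      unfold Finsupp.sum
      exact Prod.fst_sum
    rw [h3] at h
    rw [← h]
    apply Finsupp.sum_congr
    intro i _
    rw [Prod.smul_fst, hfst, hβ, Int.cast_smul_eq_zsmul]
    congr 2
    change (i.1.map Subtype.val).map _ = _
    rw [List.map_map]
    apply List.map_congr_left
    intro j _
    change UniversalEnvelopingAlgebra.ι ℂ (bJ j.1) = iA (bel ℂ j.1)
    rw [bJ_eq]
  have h4 := β.linearIndependent.comp inc inc_inj
  rw [linearIndependent_iff'] at h4
  have h5 : ∀ i ∈ c.support, (c i : ℂ) = 0 := h4 c.support (fun i => (c i : ℂ)) h2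
  have h6 : c = 0 := by
    ext i
    by_contra hi
    have h7 := h5 i (Finsupp.mem_support_iff.2 hi)
    exact hi (by exact_mod_cast h7)
  rw [h6, Finsupp.sum_zero_index]
  rfl

/-- an integral word that vanishes over the complex numbers vanishes over every field -/
theorem tor (K : Type u) [Field K] (k : ℤ) (P : FW) (h : lat (k : ℂ) P = 0) :
    lat (k : K) P = 0 := by
  obtain ⟨ξ, h1, h2⟩ := exists_xi (k : ℂ)
  have h3 : ∀ P : FW, ξ (lat (k : ℂ) P) = eU ℂ P := by
    intro P
    induction P using FW.ind with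
    | h1 => rw [lat_one, h1, map_one]
    | ha u v hu hv => rw [lat_add, map_add, hu, hv, map_add]
    | hs r u hu => rw [lat_smul, map_smul, hu, map_smul, Int.cast_smul_eq_zsmul]
    | hz n a u hu => rw [lat_gw, h2 _ _ _ (by omega), hu, map_mul, eU_gw]
  have h4 : eU ℂ P = 0 := by rw [← h3, h, map_zero]
  have h5 : eU K P = 0 := zero_of K (pair_mem K P) h4
  unfold lat
  rw [h5, zero_smul]

end Pool.Agent.H391.CV
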