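import Pool.Agent.H391.CV.R

set_option autoImplicit false
set_option linter.unusedVariables false

/-! The Cartan symbol of the vectors of the Harish-Chandra centre. -/

attribute [local instance 100] LieRing.ofAssociativeRing

namespace Pool.Agent.H391.CV

universe u

open Polynomial

/-- the value of a variable -/
noncomputable def xW (a : Fin 14) : ℤ[X][X] := if a = 0 then X else if a = 1 then C X * X else 0

/-- restriction to a general line of the Cartan subalgebra -/
noncomputable def evW : MvPolynomial (Fin 14) ℤ →+* ℤ[X][X] :=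
  MvPolynomial.eval₂Hom (C.comp C) xW

lemma evW_C (r : ℤ) : evW (MvPolynomial.C r) = C (C r) := by
  unfold evW; rw [MvPolynomial.coe_eval₂Hom, MvPolynomial.eval₂_C]; rfl

lemma evW_X (a : Fin 14) : evW (MvPolynomial.X a) = xW a := by
  unfold evW; rw [MvPolynomial.coe_eval₂Hom, MvPolynomial.eval₂_X]

lemma evW_der (q : MvPolynomial (Fin 14) ℤ) : derivative (evW q) =
    evW (MvPolynomial.pderiv 0 q) + C X * evW (MvPolynomial.pderiv 1 q) := by
  induction q using MvPolynomial.induction_on with
  | C a => rw [evW_C, derivative_C, MvPolynomial.pderiv_C, MvPolynomial.pderiv_C, map_zero,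
      mul_zero, add_zero]
  | add p q hp hq => rw [map_add, derivative_add, hp, hq, map_add, map_add, map_add, map_add]; ring
  | mul_X p n hp =>
    rw [map_mul, derivative_mul, hp, MvPolynomial.pderiv_mul, MvPolynomial.pderiv_mul, map_add,
      map_add, map_mul, map_mul, map_mul, map_mul, evW_X, MvPolynomial.pderiv_X,
      MvPolynomial.pderiv_X]
    by_cases h0 : n = 0
    · subst h0
      rw [Pi.single_eq_same, Pi.single_eq_of_ne (by decide), map_one, map_zero]
      have : xW 0 = X := by unfold xW; rw [if_pos rfl]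
      rw [this, derivative_X]
      ring
    · by_cases h1 : n = 1
      · subst h1
        rw [Pi.single_eq_same, Pi.single_eq_of_ne (by decide), map_one, map_zero]
        have : xW 1 = C X * X := by unfold xW; rw [if_neg (by decide), if_pos rfl]
        rw [this, derivative_mul, derivative_C, derivative_X]
        ring
      · rw [Pi.single_eq_of_ne h0, Pi.single_eq_of_ne h1, map_zero]
        have : xW n = 0 := by unfold xW; rw [if_neg h0, if_neg h1]
        rw [this, derivative_zero]
        ring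

lemma evW_zero (q : MvPolynomial (Fin 14) ℤ) :
    (evW q).coeff 0 = C (MvPolynomial.constantCoeff q) := by
  induction q using MvPolynomial.induction_on with
  | C a => rw [evW_C, coeff_C_zero, MvPolynomial.constantCoeff_C]
  | add p q hp hq => rw [map_add, coeff_add, hp, hq, map_add, C_add]
  | mul_X p n hp =>
    rw [map_mul, mul_coeff_zero, hp, evW_X, map_mul, MvPolynomial.constantCoeff_X, mul_zero, C_0]
    have : (xW n).coeff 0 = 0 := by
      unfold xW
      split_ifs
      · exact coeff_X_zero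
      · rw [mul_coeff_zero, coeff_X_zero, mul_zero]
      · exact coeff_zero 0
    rw [this, mul_zero]

lemma evW_one {q : MvPolynomial (Fin 14) ℤ} (h : ∀ a, Dd a q = 0) : (evW q).coeff 1 = 0 := by
  have h1 : (derivative (evW q)).coeff 0 = 0 := by
    rw [evW_der, coeff_add, mul_coeff_zero, evW_zero, evW_zero]
    change C (c1 q 0) + _ * C (c1 q 1) = 0
    rw [c1_zero h 0 (Or.inl rfl), c1_zero h 1 (Or.inr rfl), C_0, mul_zero, add_zero]
  rw [coeff_derivative] at h1
  simpa using h1

lemma evW_three {q : MvPolynomial (Fin 14) ℤ} (h : ∀ a, Dd a q = 0) : (evW q).coeff 3 = 0 := by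
  have h1 : (derivative (derivative (derivative (evW q)))).coeff 0 = 0 := by
    simp only [evW_der, derivative_add, derivative_mul, derivative_C, zero_mul, zero_add,
      coeff_add, mul_coeff_zero, coeff_C_zero, evW_zero]
    have hz : ∀ i j k : Fin 14, i = 0 ∨ i = 1 → j = 0 ∨ j = 1 → k = 0 ∨ k = 1 →
        MvPolynomial.constantCoeff (MvPolynomial.pderiv i (MvPolynomial.pderiv j
          (MvPolynomial.pderiv k q))) = 0 := fun i j k hi hj hk => c3_zero h i j k hi hj hk
    have z0 : (0 : Fin 14) = 0 ∨ (0 : Fin 14) = 1 := Or.inl rfl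
    have z1 : (1 : Fin 14) = 0 ∨ (1 : Fin 14) = 1 := Or.inr rfl
    rw [hz 0 0 0 z0 z0 z0, hz 1 0 0 z1 z0 z0, hz 0 1 0 z0 z1 z0, hz 1 1 0 z1 z1 z0,
      hz 0 0 1 z0 z0 z1, hz 1 0 1 z1 z0 z1, hz 0 1 1 z0 z1 z1, hz 1 1 1 z1 z1 z1]
    simp
  simp only [coeff_derivative] at h1
  norm_num at h1
  exact h1

/-- the linear map `x ↦ (x_0 + ω x_1) T` -/
noncomputable def sT (K : Type u) [Field K] (ω : K) : G2 K →ₗ[K] K[X] where
  toFun x := C (x 0 + ω * x 1) * X
  map_add' x y := by
    rw [add_app, add_app, ← add_mul, ← C_add]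
    congr 2; ring
  map_smul' r x := by
    rw [RingHom.id_apply, smul_app, smul_app, smul_eq_C_mul]
    generalize x 0 = y
    generalize x 1 = z
    have : (C (r * y + ω * (r * z)) : K[X]) = C r * C (y + ω * z) := by
      rw [← C_mul]; congr 1; ring
    rw [this, mul_assoc]

/-- the evaluation of the coefficients -/
noncomputable def thW (K : Type u) [Field K] (ω : K) : ℤ[X] →+* K :=
  eval₂RingHom (Int.castRingHom K) ω

lemma sT_e (K : Type u) [Field K] (ω : K) (a : Fin 14) : sT K ω (e a) = (xW a).map (thW K ω) := by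
  change C ((e a : G2 K) 0 + ω * (e a : G2 K) 1) * X = _
  have hX : thW K ω X = ω := eval₂_X _ _
  rw [e_app, e_app]
  unfold xW
  by_cases h0 : a = 0
  · subst h0
    rw [if_pos rfl, if_neg (by decide), if_pos rfl, Polynomial.map_X]
    simp
  · by_cases h1 : a = 1
    · subst h1
      rw [if_neg (by decide), if_pos rfl, if_neg (by decide), if_pos rfl, Polynomial.map_mul,
        Polynomial.map_X, Polynomial.map_C, hX]
      simp
    · rw [if_neg (Ne.symm h0), if_neg (Ne.symm h1), if_neg h0, if_neg h1, Polynomial.map_zero]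
      simp

/-- the Cartan symbol of an integral word -/
theorem symb_T (K : Type u) [Field K] (κ ω : K) (ψ : Vk K κ →ₗ[K] K[X])
    (h1 : ψ (vac κ) = 1) (h2 : ∀ (x : G2 K) (v : Vk K κ), ψ (act κ x (-1) v) = sT K ω x * ψ v)
    (h3 : ∀ (x : G2 K) (n : ℤ) (v : Vk K κ), n < -1 → ψ (act κ x n v) = 0) (P : FW) :
    ψ (lat κ P) = (evW (qP P)).map (thW K ω) := by
  induction P using FW.ind with
  | h1 => rw [lat_one, h1, map_one, map_one, Polynomial.map_one]
  | ha u v hu hv => rw [lat_add, map_add, hu, hv, map_add, map_add, Polynomial.map_add]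
  | hs r u hu =>
    have e2 : qP (r • u) = r • qP u := map_smul _ _ _
    have e1 : (evW (r • qP u)).map (thW K ω) = (r : K) • (evW (qP u)).map (thW K ω) := by
      rw [MvPolynomial.smul_eq_C_mul, map_mul, evW_C, Polynomial.map_mul, Polynomial.map_C,
        smul_eq_C_mul]
      congr 2
      exact (eval₂_C _ _)
    rw [lat_smul, map_smul, hu, e2, e1]
  | hz n b u hu =>
    rcases Nat.eq_zero_or_pos n with rfl | hn
    · have e0 : (-((0 : ℕ) : ℤ) - 1) = -1 := by norm_num
      rw [lat_gw, e0, h2, sT_e, hu, qP_gw_zero, map_mul, Polynomial.map_mul, evW_X]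
    · have hn' : n ≠ 0 := by omega
      rw [lat_gw, h3 _ _ _ (by omega), qP_gw_succ _ hn', map_zero, Polynomial.map_zero]

/-- the vectors of the Harish-Chandra centre are central and have no linear and no cubic part -/
theorem hc_props (K : Type u) [Field K] (k : ℤ) (ω : K) (ψ : Vk K (k : K) →ₗ[K] K[X])
    (h1 : ψ (vac (k : K)) = 1)
    (h2 : ∀ (x : G2 K) (v : Vk K (k : K)), ψ (act (k : K) x (-1) v) = sT K ω x * ψ v)
    (h3 : ∀ (x : G2 K) (n : ℤ) (v : Vk K (k : K)), n < -1 → ψ (act (k : K) x n v) = 0) (P : FW)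
    (hP : ∀ (x : G2 ℂ) (n : ℤ), 0 ≤ n → act (k : ℂ) x n (lat (k : ℂ) P) = 0) :
    (∀ (x : G2 K) (n : ℤ), 0 ≤ n → act (k : K) x n (lat (k : K) P) = 0) ∧
      (ψ (lat (k : K) P)).coeff 1 = 0 ∧ (ψ (lat (k : K) P)).coeff 3 = 0 := by
  have hD : ∀ a, Dd a (qP P) = 0 := inv_of_central (k : ℂ) P hP
  refine ⟨fun x n hn => ?_, ?_, ?_⟩
  · induction x using G2.ind with
    | h0 => exact act_zero _ _ _
    | ha x y hx hy => rw [act_add, hx, hy, add_zero]
    | hs r a =>
      obtain ⟨Q, hQ1, hQ2⟩ := straight ℂ K k P n a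
      rw [hP _ _ hn] at hQ1
      rw [act_smul, hQ2, tor K k Q hQ1.symm, smul_zero]
  · rw [symb_T K (k : K) ω ψ h1 h2 h3, coeff_map, evW_one hD, map_zero]
  · rw [symb_T K (k : K) ω ψ h1 h2 h3, coeff_map, evW_three hD, map_zero]

end Pool.Agent.H391.CV
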